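import Pool.Agent.Lib.MP_0430e4_lc.Las.SETB

/-!
# The sum over the bipartite graphs without `2 ^ (a b)`: definitions
-/

set_option autoImplicit false

namespace Pool.Agent.Lib.MP_0430e4_lc.Lsn

open Finset

/-- `K` has the bound `c` as a bilinear form on the functions of tuples. -/
def BD {V ι κ : Type*} [Fintype V] [DecidableEq V] [Fintype ι] [DecidableEq ι] [Fintype κ]
    [DecidableEq κ] (c : ℝ) (K : (ι → V) → (κ → V) → ℝ) : Prop :=
  ∀ (p : (ι → V) → ℝ) (r : (κ → V) → ℝ), (∑ α, ∑ β, K α β * p α * r β) ^ 2 ≤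
    c * ((∑ α, p α ^ 2) * ∑ β, r β ^ 2)

/-- the `i` with `f i = j` -/
def eqs {a b : ℕ} (f : Fin a → Fin b) (j : Fin b) : Finset (Fin a) := univ.filter fun i => f i = j

/-- the `i` with `f i < j` -/
def lts {a b : ℕ} (f : Fin a → Fin b) (j : Fin b) : Finset (Fin a) := univ.filter fun i => f i < j

/-- the image of `f` -/
def dom {a b : ℕ} (f : Fin a → Fin b) : Finset (Fin b) := univ.filter fun j => (eqs f j).Nonempty

/-- the factor of the column `j` for the pattern `f`, where `x i` are the entries of the column -/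
noncomputable def col {a b : ℕ} (f : Fin a → Fin b) (x : Fin a → ℝ) (j : Fin b) : ℝ :=
  if (eqs f j).Nonempty then (∏ i ∈ eqs f j, x i) * ∏ i ∈ lts f j, (1 + x i)
  else (∏ i ∈ lts f j, (1 + x i)) - 1

end Pool.Agent.Lib.MP_0430e4_lc.Lsn
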