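import Pool.Agent.Lib.MP_0430e4_lc.Lsn.Psi

/-!
# Psm: the moment matrix is positive semidefinite

PROOF. Copy of `Las.momPos` (file Las/PSD.lean) with `c0 = t * (t ^ (2 t) * (1 + θ) ^ (2 t ^ 2)) * R` and `Lsn.inner_bound`.
-/

set_option autoImplicit false

namespace Pool.Agent.Lib.MP_0430e4_lc.Lsn

open Finset

variable {V : Type*} [Fintype V] [DecidableEq V] {Φ : V → V → ℝ} {θ σ ρ : ℝ}

theorem momPos [Nonempty V] (h : Las.Ker Φ θ σ ρ) {t : ℕ} (ht : 1 ≤ t) {M R : ℝ} (hM : 0 < M)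
    (hR : ∀ m ≤ 2 * t - 2, M * ρ * (σ * Real.sqrt M) ^ m ≤ R)
    (hc : t * 2 ^ t * (t : ℝ) ^ (2 * t) * (1 + θ) ^ (3 * t ^ 2) * R ≤ 1) :
    Las.MomPos t (fun S : Finset V => (M / Fintype.card V) ^ S.card * Las.wgt Φ S) := by
  classical
  intro f
  have hN : (0 : ℝ) < Fintype.card V := by exact_mod_cast Fintype.card_pos
  set u : ℝ := M / Fintype.card V with hu
  have hu0 : 0 < u := by positivity
  have hR0 : 0 ≤ R := by
    refine le_trans ?_ (hR 0 (Nat.zero_le _))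
    have := h.ρ0
    positivity
  set f' : Finset V → ℝ := fun A => if A.card ≤ t then f A else 0 with hf'
  have hfz : ∀ A : Finset V, t < A.card → f' A = 0 := by
    intro A hA
    simp only [hf', if_neg (not_le.mpr hA)]
  have e0 : ∑ A ∈ Las.small V t, ∑ B ∈ Las.small V t, f A * f B * (u ^ (A ∪ B).card * Las.wgt Φ (A ∪ B)) =
      ∑ A, ∑ B, f' A * f' B * (u ^ (A ∪ B).card * Las.wgt Φ (A ∪ B)) := by
    unfold Las.small
    rw [sum_filter]
    refine sum_congr rfl fun A _ => ?_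
    by_cases hA : A.card ≤ t
    · rw [if_pos hA, sum_filter]
      refine sum_congr rfl fun B _ => ?_
      by_cases hB : B.card ≤ t
      · simp only [hf', if_pos hA, if_pos hB]
      · simp only [hf', if_neg hB, mul_zero, zero_mul]
    · rw [if_neg hA]
      symm
      refine sum_eq_zero fun B _ => ?_
      simp only [hf', if_neg hA, zero_mul]
  rw [e0, Las.expansion h.symm h.nonneg h.diag u f']
  set S : Finset V → ℝ := Las.cnd Φ u f' with hSd
  have hS : ∀ J, t < J.card → S J = 0 := fun J hJ => Las.cnd_eq_zero_of_card u hfz hJ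
  have hS2 : ∀ J, Las.wgt Φ J = 0 → S J = 0 := fun J hJ => Las.cnd_eq_zero h.symm h.nonneg u f' hJ
  have hw : ∀ I : Finset V, 0 ≤ (Las.wgt Φ I)⁻¹ := fun I => inv_nonneg.mpr (Las.wgt_nonneg I)
  set c0 : ℝ := t * ((t : ℝ) ^ (2 * t) * (1 + θ) ^ (2 * t ^ 2)) * R with hc0
  have hθ := h.θ0
  have hc00 : 0 ≤ c0 := by positivity
  have hinner : ∀ I : Finset V, u ^ I.card * (Las.wgt Φ I)⁻¹ * (S I ^ 2 - c0 *
        ∑ A ∈ univ.filter (fun A : Finset V => Disjoint I A), u ^ A.card * S (I ∪ A) ^ 2) ≤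
      u ^ I.card * (Las.wgt Φ I)⁻¹ *
      ∑ g ∈ univ.filter (fun g : Finset (V × V) => Disjoint I (Las.lft g) ∧ Disjoint I (Las.rgt g)),
        Las.edg Φ g * (u ^ (Las.lft g).card * S (I ∪ Las.lft g)) * (u ^ (Las.rgt g).card * S (I ∪ Las.rgt g)) := by
    intro I
    refine mul_le_mul_of_nonneg_left (Lsn.inner_bound h hM hR hR0 hu I S hS) ?_
    exact mul_nonneg (by positivity) (hw I)
  refine le_trans ?_ (sum_le_sum fun I _ => hinner I)
  -- the error term
  have e1 : ∀ I : Finset V, u ^ I.card * (Las.wgt Φ I)⁻¹ * (S I ^ 2 - c0 *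
        ∑ A ∈ univ.filter (fun A : Finset V => Disjoint I A), u ^ A.card * S (I ∪ A) ^ 2) =
      u ^ I.card * (Las.wgt Φ I)⁻¹ * S I ^ 2 - c0 * ((Las.wgt Φ I)⁻¹ *
        ∑ J ∈ univ.filter (fun J : Finset V => I ⊆ J), u ^ J.card * S J ^ 2) := by
    intro I
    have e2 : u ^ I.card * ∑ A ∈ univ.filter (fun A : Finset V => Disjoint I A),
        u ^ A.card * S (I ∪ A) ^ 2 =
        ∑ J ∈ univ.filter (fun J : Finset V => I ⊆ J), u ^ J.card * S J ^ 2 := by
      rw [← Las.sum_disjoint I (fun J => u ^ J.card * S J ^ 2), mul_sum]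
      refine sum_congr rfl fun A hA => ?_
      rw [mem_filter] at hA
      rw [card_union_of_disjoint hA.2, pow_add]
      ring
    rw [← e2]
    ring
  rw [sum_congr rfl fun I _ => e1 I, sum_sub_distrib, ← mul_sum]
  have e3 : ∑ I : Finset V, (Las.wgt Φ I)⁻¹ *
        ∑ J ∈ univ.filter (fun J : Finset V => I ⊆ J), u ^ J.card * S J ^ 2 =
      ∑ J : Finset V, (∑ I ∈ J.powerset, (Las.wgt Φ I)⁻¹) * (u ^ J.card * S J ^ 2) := by
    simp only [mul_sum, sum_mul, sum_filter]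
    rw [sum_comm]
    refine sum_congr rfl fun J _ => ?_
    have e4 : J.powerset = univ.filter (fun I : Finset V => I ⊆ J) := by
      ext I
      simp
    rw [e4, sum_filter]
    refine sum_congr rfl fun I _ => ?_
    split_ifs <;> simp
  rw [e3]
  have h7 : ∑ J : Finset V, (∑ I ∈ J.powerset, (Las.wgt Φ I)⁻¹) * (u ^ J.card * S J ^ 2) ≤
      ∑ J : Finset V, 2 ^ t * (1 + θ) ^ (t ^ 2) * (u ^ J.card * (Las.wgt Φ J)⁻¹ * S J ^ 2) := by
    refine sum_le_sum fun J _ => ?_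
    by_cases hJ : S J = 0
    · simp [hJ]
    · have h8 : J.card ≤ t := by
        by_contra h9
        exact hJ (hS J (not_le.mp h9))
      have h9 : Las.wgt Φ J ≠ 0 := fun h10 => hJ (hS2 J h10)
      have h10 : ∑ I ∈ J.powerset, (Las.wgt Φ I)⁻¹ ≤
          ∑ I ∈ J.powerset, (1 + θ) ^ (t ^ 2) * (Las.wgt Φ J)⁻¹ := by
        refine sum_le_sum fun I hI => ?_
        exact Las.wgt_inv_le h.symm h.nonneg h.θ0 h.le (mem_powerset.mp hI) h8 h9
      rw [sum_const, card_powerset, nsmul_eq_mul] at h10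
      have h11 : ((2 ^ J.card : ℕ) : ℝ) ≤ 2 ^ t := by
        push_cast
        exact pow_le_pow_right₀ (by norm_num) h8
      have h12 : ∑ I ∈ J.powerset, (Las.wgt Φ I)⁻¹ ≤
          2 ^ t * ((1 + θ) ^ (t ^ 2) * (Las.wgt Φ J)⁻¹) := by
        refine h10.trans (mul_le_mul_of_nonneg_right h11 ?_)
        exact mul_nonneg (by positivity) (hw J)
      calc (∑ I ∈ J.powerset, (Las.wgt Φ I)⁻¹) * (u ^ J.card * S J ^ 2)
          ≤ 2 ^ t * ((1 + θ) ^ (t ^ 2) * (Las.wgt Φ J)⁻¹) * (u ^ J.card * S J ^ 2) :=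
            mul_le_mul_of_nonneg_right h12 (by positivity)
        _ = _ := by ring
  rw [← mul_sum] at h7
  set D : ℝ := ∑ J : Finset V, u ^ J.card * (Las.wgt Φ J)⁻¹ * S J ^ 2 with hD
  have hD0 : 0 ≤ D := sum_nonneg fun J _ =>
    mul_nonneg (mul_nonneg (by positivity) (hw J)) (sq_nonneg _)
  have h13 : c0 * ∑ J : Finset V, (∑ I ∈ J.powerset, (Las.wgt Φ I)⁻¹) * (u ^ J.card * S J ^ 2) ≤ D := by
    calc _ ≤ c0 * (2 ^ t * (1 + θ) ^ (t ^ 2) * D) := mul_le_mul_of_nonneg_left h7 hc00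
      _ = t * 2 ^ t * (t : ℝ) ^ (2 * t) * (1 + θ) ^ (3 * t ^ 2) * R * D := by
          have e5 : (1 + θ) ^ (3 * t ^ 2) = (1 + θ) ^ (2 * t ^ 2) * (1 + θ) ^ (t ^ 2) := by
            rw [← pow_add]
            congr 1
            ring
          rw [hc0, e5]
          ring
      _ ≤ 1 * D := mul_le_mul_of_nonneg_right hc hD0
      _ = D := one_mul D
  linarith

end Pool.Agent.Lib.MP_0430e4_lc.Lsn
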