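import Pool.Agent.Lib.MP_0430e4_lc.Las.KERC
import Pool.Agent.Lib.MP_0430e4_lc.Lsn.Psm

/-!
# Kerd: the bound at finite length

PROOF. Copy of `Las.las_ge` (file Las/KERC.lean) with `Lsn.momPos`.
-/

set_option autoImplicit false

namespace Pool.Agent.Lib.MP_0430e4_lc.Lsn

open Finset
open Impr (wt)
open LPL (hat)

variable {n : ℕ}

theorem las_ge {t d : ℕ} (ht : 1 ≤ t) {a : ℕ → ℝ} {θ σ ρ M R : ℝ} (hd : 1 ≤ d)
    (ha : ∀ j < d, a j = -1) (hlo : ∀ j ≤ n, -1 ≤ a j) (hup : ∀ j ≤ n, a j ≤ θ) (hθ0 : 0 ≤ θ)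
    (hθ1 : θ ≤ 1) (hσ : 0 ≤ σ) (hsq : ∑ x : Fin n → Bool, a (wt x) ^ 2 ≤ 2 ^ n * σ ^ 2)
    (hρ : 0 ≤ ρ) (hρσ : ρ ≤ σ ^ 2)
    (hhat : ∀ v : Fin n → Bool, |hat (fun x => a (wt x)) v| ≤ 2 ^ n * ρ) (hM : 0 < M)
    (hR : ∀ m ≤ 2 * t - 2, M * ρ * (σ * Real.sqrt M) ^ m ≤ R)
    (hc : t * 2 ^ t * (t : ℝ) ^ (2 * t) * (1 + θ) ^ (3 * t ^ 2) * R ≤ 1) :
    M ≤ Las.las t n d := by
  have hker := Las.ker_of_profile (n := n) (ha 0 (by omega)) hlo hup hθ0 hθ1 hσ hsq hρ hρσ hhat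
  have hmom := Lsn.momPos hker ht hM hR hc
  unfold Las.las
  refine le_csSup (Las.las_bdd ht n d) ⟨_, ?_, ?_, hmom, ?_⟩
  · simp [Las.wgt]
  · rintro S ⟨u, hu, v, hv, huv, hdist⟩
    have hz : Las.wgt (fun x y : Fin n → Bool => 1 + a (hammingDist x y)) S = 0 := by
      unfold Las.wgt
      rw [Finset.prod_eq_zero (i := (u, v)) (Finset.mem_offDiag.2 ⟨hu, hv, huv⟩), Real.sqrt_zero]
      show 1 + a (hammingDist u v) = 0
      rw [ha _ hdist]
      ring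
    show (M / Fintype.card (Fin n → Bool)) ^ S.card *
      Las.wgt (fun x y : Fin n → Bool => 1 + a (hammingDist x y)) S = 0
    rw [hz, mul_zero]
  · have h1 : ∀ x : Fin n → Bool, (M / Fintype.card (Fin n → Bool)) ^ ({x} : Finset _).card *
        Las.wgt (fun x y : Fin n → Bool => 1 + a (hammingDist x y)) {x} =
        M / Fintype.card (Fin n → Bool) := by
      intro x
      rw [Finset.card_singleton, pow_one]
      have : Las.wgt (fun x y : Fin n → Bool => 1 + a (hammingDist x y)) {x} = 1 := by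
        unfold Las.wgt
        rw [Finset.offDiag_singleton, Finset.prod_empty, Real.sqrt_one]
      rw [this, mul_one]
    show M = ∑ x : Fin n → Bool, (M / Fintype.card (Fin n → Bool)) ^ ({x} : Finset _).card *
        Las.wgt (fun x y : Fin n → Bool => 1 + a (hammingDist x y)) {x}
    rw [Finset.sum_congr rfl fun x _ => h1 x, Finset.sum_const, Finset.card_univ, nsmul_eq_mul]
    have : (Fintype.card (Fin n → Bool) : ℝ) ≠ 0 := by
      rw [Las.kerc_card]; positivity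
    field_simp

end Pool.Agent.Lib.MP_0430e4_lc.Lsn
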