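import Pool.Agent.Lib.MP_0430e4_lc.Las.NUM1

/-!
# Numa: the numerical estimates

PROOF. `num_theta`: with `e' = e / 6`: `Las.num1_ev` gives `n + 1 ≤ 2 ^ (n e')`, so `(n + 1) * n ^ 4 ≤ 2 ^ (5 n e')`, and
`9 * max Q 1 ≤ 2 ^ (n e')` eventually (tends to infinity); product with `2 ^ (-(n e))` is at most `1`.

`num_range`: `log` of the left side is at most `log 3 + log t + t log 2 + 2 t log t + t log C + log (C (n + 1))`. For `n ≥ 3`:
`1 ≤ log n`, so `t ≤ t log n ≤ c n`, `t log t ≤ t log n ≤ c n`, `log t ≤ t ≤ c n`; total at most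
`c n (1 + log 2 + 2 + log C) + log 3 + log C + log (n + 1)`, and `log 3 + log C + log (n + 1) ≤ n e log 2 / 2` eventually. Take
`c = min 1 (e log 2 / (2 (4 + log C)))`. (`c ≤ 1` gives `t ≤ n`.) `Real.log_pow`, `Real.log_mul`, `Real.log_le_log_iff`,
`2 ^ (n e) = exp (n e log 2)`.

`num_old`: `√n * log n ≤ n`: `log n = 2 log √n ≤ 2 (√n / 2) = √n` (`Real.add_one_le_exp`/`Real.log_le_sub_one_of_pos (√n / 2)` and `log 2 < 1`).
-/

set_option autoImplicit false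

namespace Pool.Agent.Lib.MP_0430e4_lc.Lsn

open Finset Filter

private theorem Numa_rpow (n : ℕ) (e : ℝ) :
    (2 : ℝ) ^ ((n : ℝ) * e) = Real.exp ((n : ℝ) * e * Real.log 2) := by
  rw [Real.rpow_def_of_pos (by norm_num)]
  congr 1
  ring

theorem num_theta (Q : ℝ) {e : ℝ} (he : 0 < e) : ∀ᶠ n : ℕ in atTop,
    Q * ((n : ℝ) + 1) * (2 : ℝ) ^ (-((n : ℝ) * e)) * (9 * (n : ℝ) ^ 4) ≤ 1 := by
  obtain ⟨M, hM⟩ : ∃ M : ℝ, M = max Q 1 := ⟨_, rfl⟩
  have hM1 : 1 ≤ M := hM ▸ le_max_right _ _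
  have hQM : Q ≤ M := hM ▸ le_max_left _ _
  have h1 : Tendsto (fun n : ℕ => (n : ℝ) ^ 5 / (Real.exp (e * Real.log 2)) ^ n) atTop (nhds 0) :=
    tendsto_pow_const_div_const_pow_of_one_lt 5
      (Real.one_lt_exp_iff.2 (mul_pos he (Real.log_pos (by norm_num))))
  have h2 : ∀ᶠ n : ℕ in atTop, (n : ℝ) ^ 5 / (Real.exp (e * Real.log 2)) ^ n < 1 / (18 * M) :=
    h1.eventually_lt_const (by positivity)
  filter_upwards [h2, Filter.eventually_ge_atTop 1] with n hn hn1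
  have h3 : (2 : ℝ) ^ (-((n : ℝ) * e)) = ((Real.exp (e * Real.log 2)) ^ n)⁻¹ := by
    rw [Real.rpow_neg (by norm_num), Numa_rpow, ← Real.exp_nat_mul]
    congr 2
    ring
  rw [h3]
  obtain ⟨r, hr⟩ : ∃ r : ℝ, r = (Real.exp (e * Real.log 2)) ^ n := ⟨_, rfl⟩
  have hr0 : 0 < r := by
    rw [hr]
    positivity
  rw [← hr] at hn ⊢
  have h5 : (1 : ℝ) ≤ n := by exact_mod_cast hn1
  have h6 : (n : ℝ) ^ 5 / r * (18 * M) < 1 := by
    have h7 : (0 : ℝ) < 18 * M := by positivity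
    rw [lt_div_iff₀ h7] at hn
    exact hn
  have h8 : Q * ((n : ℝ) + 1) * r⁻¹ * (9 * (n : ℝ) ^ 4) ≤ M * (2 * (n : ℝ)) * r⁻¹ * (9 * (n : ℝ) ^ 4) := by
    have h9 : Q * ((n : ℝ) + 1) ≤ M * (2 * (n : ℝ)) :=
      mul_le_mul hQM (by linarith) (by positivity) (by positivity)
    gcongr
  have h10 : M * (2 * (n : ℝ)) * r⁻¹ * (9 * (n : ℝ) ^ 4) = (n : ℝ) ^ 5 / r * (18 * M) := by
    rw [div_eq_mul_inv]
    ring
  linarith

theorem num_range {C e : ℝ} (hC : 1 ≤ C) (he : 0 < e) :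
    ∃ c : ℝ, 0 < c ∧ ∀ᶠ n : ℕ in atTop, ∀ t : ℕ, 1 ≤ t → (t : ℝ) ≤ c * n / Real.log n →
      t ≤ n ∧ (t : ℝ) * 2 ^ t * (t : ℝ) ^ (2 * t) * 3 * (C ^ t * Real.sqrt (C * (n + 1))) ≤
        (2 : ℝ) ^ ((n : ℝ) * e) := by
  have hlC : 0 ≤ Real.log C := Real.log_nonneg hC
  have hl2 : 0 < Real.log 2 := Real.log_pos (by norm_num)
  have hl2' : Real.log 2 ≤ 1 := by
    have := Real.log_two_lt_d9
    linarith
  obtain ⟨K, hK⟩ : ∃ K : ℝ, K = 4 + Real.log C := ⟨_, rfl⟩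
  have hK0 : 0 < K := by
    rw [hK]
    linarith
  obtain ⟨c, hc⟩ : ∃ c : ℝ, c = min 1 (e * Real.log 2 / (2 * K)) := ⟨_, rfl⟩
  have hc0 : 0 < c := by
    rw [hc]
    exact lt_min one_pos (by positivity)
  have hc1 : c ≤ 1 := hc ▸ min_le_left _ _
  have hcK : c * K ≤ e * Real.log 2 / 2 := by
    have h1 : c ≤ e * Real.log 2 / (2 * K) := hc ▸ min_le_right _ _
    have h2 : c * K ≤ e * Real.log 2 / (2 * K) * K := mul_le_mul_of_nonneg_right h1 hK0.le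
    have h3 : e * Real.log 2 / (2 * K) * K = e * Real.log 2 / 2 := by
      field_simp
    linarith
  refine ⟨c, hc0, ?_⟩
  have he4 : 0 < e / 4 := by positivity
  have hbig : ∀ᶠ n : ℕ in atTop, 3 * C ≤ (n : ℝ) :=
    tendsto_natCast_atTop_atTop.eventually_ge_atTop (3 * C)
  filter_upwards [Las.num1_ev he4, hbig, Filter.eventually_ge_atTop 3] with n hn hnC hn3 t ht htc
  have hn3R : (3 : ℝ) ≤ n := by exact_mod_cast hn3
  have hnR : (0 : ℝ) < n := by linarith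
  have htR : (1 : ℝ) ≤ t := by exact_mod_cast ht
  have ht0 : (0 : ℝ) < t := by linarith
  have hL1 : 1 ≤ Real.log n := by
    rw [Real.le_log_iff_exp_le hnR]
    have := Real.exp_one_lt_d9
    linarith
  obtain ⟨L, hL⟩ : ∃ L : ℝ, L = Real.log n := ⟨_, rfl⟩
  rw [← hL] at hL1 htc
  have hL0 : 0 < L := by linarith
  have htL : (t : ℝ) * L ≤ c * n := by
    rw [le_div_iff₀ hL0] at htc
    exact htc
  have htn : (t : ℝ) ≤ n := by
    have h1 : (t : ℝ) ≤ t * L := le_mul_of_one_le_right ht0.le hL1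
    have h2 : c * n ≤ 1 * n := mul_le_mul_of_nonneg_right hc1 hnR.le
    linarith
  refine ⟨by exact_mod_cast htn, ?_⟩
  have f1 : (t : ℝ) ≤ Real.exp (t * L) := by
    have h1 := Real.add_one_le_exp ((t : ℝ) * L)
    have h2 : (t : ℝ) ≤ t * L := le_mul_of_one_le_right ht0.le hL1
    linarith
  have f2 : (2 : ℝ) ^ t ≤ Real.exp (t * L) := by
    have h1 : (2 : ℝ) ^ t = Real.exp (t * Real.log 2) := by
      rw [Real.exp_nat_mul, Real.exp_log (by norm_num)]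
    rw [h1, Real.exp_le_exp]
    exact mul_le_mul_of_nonneg_left (by linarith) ht0.le
  have f3 : (t : ℝ) ^ (2 * t) ≤ Real.exp (2 * (t * L)) := by
    have h1 : (t : ℝ) ^ (2 * t) = Real.exp (2 * (t * Real.log t)) := by
      rw [← mul_assoc]
      have h2 : (2 : ℝ) * t = ((2 * t : ℕ) : ℝ) := by
        push_cast
        rfl
      rw [h2, Real.exp_nat_mul, Real.exp_log ht0]
    rw [h1, Real.exp_le_exp]
    have h3 : Real.log t ≤ L := by
      rw [hL]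
      exact Real.log_le_log ht0 htn
    have h4 : (t : ℝ) * Real.log t ≤ t * L := mul_le_mul_of_nonneg_left h3 ht0.le
    linarith
  have f4 : C ^ t ≤ Real.exp (t * L * Real.log C) := by
    have hC0 : 0 < C := by linarith
    have h1 : C ^ t = Real.exp (t * Real.log C) := by
      rw [Real.exp_nat_mul, Real.exp_log hC0]
    rw [h1, Real.exp_le_exp]
    have h2 : (t : ℝ) ≤ t * L := le_mul_of_one_le_right ht0.le hL1
    exact mul_le_mul_of_nonneg_right h2 hlC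
  have f5 : 3 * Real.sqrt (C * (n + 1)) ≤ (2 : ℝ) ^ ((n : ℝ) * (e / 2)) := by
    have h1 : Real.sqrt (C * (n + 1)) ≤ C * (n + 1) := by
      rw [Real.sqrt_le_left (by positivity)]
      have h3 : (1 : ℝ) ≤ C * (n + 1) := by nlinarith
      nlinarith
    have h2 : 3 * (C * (n + 1)) ≤ ((n : ℝ) + 1) * ((n : ℝ) + 1) := by
      nlinarith
    have h3 : ((n : ℝ) + 1) * ((n : ℝ) + 1) ≤ (2 : ℝ) ^ ((n : ℝ) * (e / 4)) * (2 : ℝ) ^ ((n : ℝ) * (e / 4)) :=
      mul_le_mul hn hn (by positivity) (by positivity)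
    have h4 : (2 : ℝ) ^ ((n : ℝ) * (e / 4)) * (2 : ℝ) ^ ((n : ℝ) * (e / 4)) =
        (2 : ℝ) ^ ((n : ℝ) * (e / 2)) := by
      rw [← Real.rpow_add (by norm_num)]
      congr 1
      ring
    linarith
  have f6 : (t : ℝ) * 2 ^ t * (t : ℝ) ^ (2 * t) * C ^ t ≤ (2 : ℝ) ^ ((n : ℝ) * (e / 2)) := by
    have h1 : (t : ℝ) * 2 ^ t * (t : ℝ) ^ (2 * t) * C ^ t ≤
        Real.exp (t * L) * Real.exp (t * L) * Real.exp (2 * (t * L)) * Real.exp (t * L * Real.log C) := by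
      gcongr
    have h2 : Real.exp (t * L) * Real.exp (t * L) * Real.exp (2 * (t * L)) * Real.exp (t * L * Real.log C) =
        Real.exp (t * L * K) := by
      rw [← Real.exp_add, ← Real.exp_add, ← Real.exp_add, hK]
      congr 1
      ring
    rw [h2] at h1
    refine h1.trans ?_
    rw [Numa_rpow, Real.exp_le_exp]
    calc (t : ℝ) * L * K ≤ c * n * K := mul_le_mul_of_nonneg_right htL hK0.le
      _ = n * (c * K) := by ring
      _ ≤ n * (e * Real.log 2 / 2) := mul_le_mul_of_nonneg_left hcK hnR.le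
      _ = n * (e / 2) * Real.log 2 := by ring
  calc (t : ℝ) * 2 ^ t * (t : ℝ) ^ (2 * t) * 3 * (C ^ t * Real.sqrt (C * (n + 1)))
      = ((t : ℝ) * 2 ^ t * (t : ℝ) ^ (2 * t) * C ^ t) * (3 * Real.sqrt (C * (n + 1))) := by ring
    _ ≤ (2 : ℝ) ^ ((n : ℝ) * (e / 2)) * (2 : ℝ) ^ ((n : ℝ) * (e / 2)) :=
        mul_le_mul f6 f5 (by positivity) (by positivity)
    _ = (2 : ℝ) ^ ((n : ℝ) * e) := by
        rw [← Real.rpow_add (by norm_num)]
        congr 1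
        ring

/-- `(1 + x) ^ m ≤ 3` if `m x ≤ 1` -/
theorem num_pow {x : ℝ} (hx : 0 ≤ x) {m : ℕ} (h : (m : ℝ) * x ≤ 1) : (1 + x) ^ m ≤ 3 := by
  have h1 : (1 + x) ^ m ≤ (Real.exp x) ^ m :=
    pow_le_pow_left₀ (by linarith) (by
      have := Real.add_one_le_exp x
      linarith) m
  rw [← Real.exp_nat_mul] at h1
  have h2 : Real.exp ((m : ℝ) * x) ≤ Real.exp 1 := Real.exp_le_exp.mpr h
  have := Real.exp_one_lt_d9
  linarith

end Pool.Agent.Lib.MP_0430e4_lc.Lsn
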