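import Pool.Agent.Lib.MP_0430e4_lc.Las.FIN
import Pool.Agent.Lib.MP_0430e4_lc.Lsn.Kerd
import Pool.Agent.Lib.MP_0430e4_lc.Lsn.Numa

/-!
# Finc: the bound for fixed `n`, `t`

PROOF. Copy of `Las.fin_core` (file Las/FIN.lean) with `Lsn.las_ge`. The hypothesis `hθ` is stronger: `T * (9 n ^ 4) ≤ 1`, where
`T = (κ ^ 2)⁻¹ * (n + 1) * 2 ^ (-(n (H2 (δ + η) - H2 δ)))`; it gives `T ≤ 1` (`1 ≤ n` because `1 ≤ ⌈δ n⌉₊`; `9 n ^ 4 ≥ 1`) and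
`3 t ^ 2 * √T ≤ 1` (`t ≤ n`, `(3 n ^ 2 √T) ^ 2 = 9 n ^ 4 T ≤ 1`), so `(1 + √T) ^ (3 t ^ 2) ≤ 3` by `num_pow`.
-/

set_option autoImplicit false

namespace Pool.Agent.Lib.MP_0430e4_lc.Lsn

open Finset Filter
open Las (H2 ball)
open Impr (wt)
open LPL (hat)

theorem fin_core {δ ω η κ γ : ℝ} (h0 : 0 < δ) (h1 : δ < 1 / 2) (hω : 0 < ω) (hω2 : ω < 1 / 2)
    (hη : 0 < η) (hδη : δ + η < 1 / 2) (hκ : 0 < κ) (hγ0 : 0 ≤ γ)
    {n t : ℕ} (ht : 1 ≤ t) (htn : t ≤ n) {k d2 : ℕ} (hk : 2 * k + 2 ≤ n) (hd2 : 2 * d2 < n)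
    (hdd : ⌈δ * n⌉₊ ≤ d2) (hd : 1 ≤ ⌈δ * n⌉₊) (hωk : ω * n ≤ (k + 1 : ℕ))
    (hδd2 : (δ + η) * n ≤ d2)
    (hc : 4 * ((k : ℝ) + 1) * (n - k) ≤ (1 - κ) * ((n : ℝ) - 2 * d2) ^ 2)
    (hθ : (κ ^ 2)⁻¹ * ((n : ℝ) + 1) * (2 : ℝ) ^ (-((n : ℝ) * (H2 (δ + η) - H2 δ))) *
      (9 * (n : ℝ) ^ 4) ≤ 1)
    (hρσ : (n : ℝ) + 1 ≤ (2 : ℝ) ^ ((n : ℝ) * (H2 ω - (1 - H2 δ))))
    (hfin : (t : ℝ) * 2 ^ t * (t : ℝ) ^ (2 * t) * 3 * ((1 + (κ ^ 2)⁻¹) ^ t *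
      Real.sqrt ((1 + (κ ^ 2)⁻¹) * (n + 1))) ≤
        (2 : ℝ) ^ ((n : ℝ) * ((H2 ω - (1 - H2 δ)) / 2 - γ))) :
    (2 : ℝ) ^ ((n : ℝ) * (1 - H2 δ + γ / t)) ≤ Las.las t n ⌈δ * n⌉₊ := by
  obtain ⟨a, ha1, ha2, ha3, ha4⟩ := Las.exists_profile hk hd hdd hd2 hκ hc
  have hB : ball n ⌈δ * n⌉₊ ≤ (2 : ℝ) ^ ((n : ℝ) * H2 δ) := Las.ball_le h0 h1 n
  set d := ⌈δ * n⌉₊ with hdef
  set C : ℝ := 1 + (κ ^ 2)⁻¹ with hCdef
  have hκ2 : 0 < κ ^ 2 := by positivity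
  have hC1 : 1 ≤ C := by
    have : 0 < (κ ^ 2)⁻¹ := by positivity
    rw [hCdef]; linarith
  have hC0 : 0 < C := by linarith
  have hn1 : (0 : ℝ) < (n : ℝ) + 1 := by positivity
  have htR : (1 : ℝ) ≤ t := by exact_mod_cast ht
  have htR0 : (0 : ℝ) < t := by linarith
  have hch1 : (2 : ℝ) ^ ((n : ℝ) * H2 (δ + η)) ≤ (n + 1) * n.choose d2 :=
    Las.choose_ge (by linarith) hδη.le hδd2 hd2.le
  have hch2 : (2 : ℝ) ^ ((n : ℝ) * H2 ω) ≤ (n + 1) * n.choose (k + 1) :=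
    Las.choose_ge hω hω2.le hωk (by omega)
  set T : ℝ := (κ ^ 2)⁻¹ * ((n : ℝ) + 1) * (2 : ℝ) ^ (-((n : ℝ) * (H2 (δ + η) - H2 δ))) with hT
  have hT0 : 0 ≤ T := by
    have := Las.fin_pow2 (-((n : ℝ) * (H2 (δ + η) - H2 δ)))
    positivity
  have hnn : (1 : ℝ) ≤ (n : ℝ) := htR.trans (by exact_mod_cast htn)
  have hn4 : (1 : ℝ) ≤ (n : ℝ) ^ 4 := one_le_pow₀ hnn
  have hθT : T ≤ 1 := by nlinarith
  have hθ1 : Real.sqrt T ≤ 1 := by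
    exact Real.sqrt_le_one.2 hθT
  have hθ3 : ((3 * t ^ 2 : ℕ) : ℝ) * Real.sqrt T ≤ 1 := by
    have hq : (3 * (n : ℝ) ^ 2 * Real.sqrt T) ^ 2 ≤ 1 ^ 2 := by
      have e1 : (3 * (n : ℝ) ^ 2 * Real.sqrt T) ^ 2 = T * (9 * (n : ℝ) ^ 4) := by
        rw [mul_pow, Real.sq_sqrt hT0]
        ring
      rw [e1]
      linarith
    have hq2 := abs_le_of_sq_le_sq' hq zero_le_one
    have htn2 : (t : ℝ) ^ 2 ≤ (n : ℝ) ^ 2 :=
      pow_le_pow_left₀ (by positivity) (by exact_mod_cast htn) 2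
    push_cast
    refine le_trans ?_ hq2.2
    exact mul_le_mul_of_nonneg_right (by linarith) (Real.sqrt_nonneg _)
  -- the values of the profile
  have haT : ∀ j, d ≤ j → a j ^ 2 ≤ T := by
    intro j hj
    have e1 := ha2 j hj
    have e2 : (2 : ℝ) ^ (-((n : ℝ) * (H2 (δ + η) - H2 δ))) =
        (2 : ℝ) ^ ((n : ℝ) * H2 δ) / (2 : ℝ) ^ ((n : ℝ) * H2 (δ + η)) := by
      rw [← Real.rpow_sub (by norm_num)]
      congr 1
      ring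
    rw [hT, e2]
    have hX := Las.fin_pow2 ((n : ℝ) * H2 δ)
    have hY := Las.fin_pow2 ((n : ℝ) * H2 (δ + η))
    have e3 : κ ^ 2 * a j ^ 2 * (2 : ℝ) ^ ((n : ℝ) * H2 (δ + η)) ≤
        ((n : ℝ) + 1) * (2 : ℝ) ^ ((n : ℝ) * H2 δ) := by
      calc κ ^ 2 * a j ^ 2 * (2 : ℝ) ^ ((n : ℝ) * H2 (δ + η))
          ≤ κ ^ 2 * a j ^ 2 * ((n + 1) * n.choose d2) :=
            mul_le_mul_of_nonneg_left hch1 (by positivity)
        _ = (n + 1) * (κ ^ 2 * a j ^ 2 * n.choose d2) := by ring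
        _ ≤ (n + 1) * (2 : ℝ) ^ ((n : ℝ) * H2 δ) :=
            mul_le_mul_of_nonneg_left (e1.trans hB) hn1.le
    have e4 : (κ ^ 2)⁻¹ * ((n : ℝ) + 1) *
        ((2 : ℝ) ^ ((n : ℝ) * H2 δ) / (2 : ℝ) ^ ((n : ℝ) * H2 (δ + η))) =
        (((n : ℝ) + 1) * (2 : ℝ) ^ ((n : ℝ) * H2 δ)) /
          (κ ^ 2 * (2 : ℝ) ^ ((n : ℝ) * H2 (δ + η))) := by
      field_simp
    rw [e4, le_div_iff₀ (by positivity)]
    linarith
  have habs : ∀ j, d ≤ j → |a j| ≤ Real.sqrt T := fun j hj => Real.abs_le_sqrt (haT j hj)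
  have hlo : ∀ j ≤ n, -1 ≤ a j := by
    intro j _
    rcases lt_or_ge j d with h | h
    · rw [ha1 j h]
    · have := (abs_le.1 (habs j h)).1
      linarith
  have hup : ∀ j ≤ n, a j ≤ Real.sqrt T := by
    intro j _
    rcases lt_or_ge j d with h | h
    · rw [ha1 j h]
      have := Real.sqrt_nonneg T
      linarith
    · exact (abs_le.1 (habs j h)).2
  -- sigma
  set G : ℝ := 1 - H2 δ with hG
  set S2 : ℝ := C * (2 : ℝ) ^ (-((n : ℝ) * G)) with hS2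
  have hS20 : 0 < S2 := mul_pos hC0 (Las.fin_pow2 _)
  have hsq : ∑ x : Fin n → Bool, a (wt x) ^ 2 ≤ 2 ^ n * Real.sqrt S2 ^ 2 := by
    rw [Real.sq_sqrt hS20.le]
    refine ha3.trans ?_
    have e1 : (2 : ℝ) ^ n * S2 = C * (2 : ℝ) ^ ((n : ℝ) * H2 δ) := by
      rw [hS2, ← Real.rpow_natCast 2 n]
      have e2 : (2 : ℝ) ^ (n : ℝ) * (C * (2 : ℝ) ^ (-((n : ℝ) * G))) =
          C * ((2 : ℝ) ^ (n : ℝ) * (2 : ℝ) ^ (-((n : ℝ) * G))) := by ring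
      rw [e2, ← Real.rpow_add (by norm_num)]
      congr 2
      rw [hG]; ring
    rw [e1]
    exact mul_le_mul_of_nonneg_left hB hC0.le
  -- rho
  set R2 : ℝ := C * ((n : ℝ) + 1) * (2 : ℝ) ^ (-((n : ℝ) * (G + H2 ω))) with hR2
  have hR20 : 0 < R2 := mul_pos (mul_pos hC0 hn1) (Las.fin_pow2 _)
  have hhat : ∀ v : Fin n → Bool, |hat (fun x => a (wt x)) v| ≤ 2 ^ n * Real.sqrt R2 := by
    intro v
    have e1 := ha4 v
    have hY := Las.fin_pow2 ((n : ℝ) * H2 ω)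
    have e2 : hat (fun x => a (wt x)) v ^ 2 * (2 : ℝ) ^ ((n : ℝ) * H2 ω) ≤
        2 ^ n * (C * ((n : ℝ) + 1) * (2 : ℝ) ^ ((n : ℝ) * H2 δ)) := by
      calc hat (fun x => a (wt x)) v ^ 2 * (2 : ℝ) ^ ((n : ℝ) * H2 ω)
          ≤ hat (fun x => a (wt x)) v ^ 2 * ((n + 1) * n.choose (k + 1)) :=
            mul_le_mul_of_nonneg_left hch2 (by positivity)
        _ = (n + 1) * (hat (fun x => a (wt x)) v ^ 2 * n.choose (k + 1)) := by ring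
        _ ≤ (n + 1) * (2 ^ n * (C * (2 : ℝ) ^ ((n : ℝ) * H2 δ))) := by
            apply mul_le_mul_of_nonneg_left _ hn1.le
            refine e1.trans ?_
            apply mul_le_mul_of_nonneg_left _ (by positivity)
            exact mul_le_mul_of_nonneg_left hB hC0.le
        _ = _ := by ring
    have e3 : (2 ^ n * Real.sqrt R2) ^ 2 * (2 : ℝ) ^ ((n : ℝ) * H2 ω) =
        2 ^ n * (C * ((n : ℝ) + 1) * (2 : ℝ) ^ ((n : ℝ) * H2 δ)) := by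
      rw [mul_pow, Real.sq_sqrt hR20.le, hR2]
      have e4 : ((2 : ℝ) ^ n) ^ 2 * (C * ((n : ℝ) + 1) * (2 : ℝ) ^ (-((n : ℝ) * (G + H2 ω)))) *
          (2 : ℝ) ^ ((n : ℝ) * H2 ω) = 2 ^ n * (C * ((n : ℝ) + 1) *
            ((2 : ℝ) ^ (n : ℝ) * (2 : ℝ) ^ (-((n : ℝ) * (G + H2 ω))) * (2 : ℝ) ^ ((n : ℝ) * H2 ω))) := by
        rw [Real.rpow_natCast]; ring
      rw [e4, ← Real.rpow_add (by norm_num), ← Real.rpow_add (by norm_num)]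
      congr 3
      rw [hG]; ring
    have e5 : hat (fun x => a (wt x)) v ^ 2 ≤ (2 ^ n * Real.sqrt R2) ^ 2 := by
      rw [← e3] at e2
      exact le_of_mul_le_mul_right e2 hY
    exact abs_le_of_sq_le_sq e5 (by positivity)
  have hρσ' : Real.sqrt R2 ≤ Real.sqrt S2 ^ 2 := by
    rw [Real.sq_sqrt hS20.le, Real.sqrt_le_left hS20.le]
    have e1 : S2 ^ 2 = C ^ 2 * (2 : ℝ) ^ (-(2 * ((n : ℝ) * G))) := by
      rw [hS2, mul_pow, ← Real.rpow_natCast (2 ^ _) 2, ← Real.rpow_mul (by norm_num)]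
      congr 2
      push_cast; ring
    have e2 : R2 ≤ C * ((2 : ℝ) ^ ((n : ℝ) * (H2 ω - G))) * (2 : ℝ) ^ (-((n : ℝ) * (G + H2 ω))) := by
      rw [hR2]
      apply mul_le_mul_of_nonneg_right _ (Las.fin_pow2 _).le
      exact mul_le_mul_of_nonneg_left hρσ hC0.le
    rw [mul_assoc, ← Real.rpow_add (by norm_num)] at e2
    have e3 : (n : ℝ) * (H2 ω - G) + -((n : ℝ) * (G + H2 ω)) = -(2 * ((n : ℝ) * G)) := by ring
    rw [e3] at e2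
    rw [e1]
    refine e2.trans ?_
    apply mul_le_mul_of_nonneg_right _ (Las.fin_pow2 _).le
    nlinarith
  -- M and R
  have hM : 0 < (2 : ℝ) ^ ((n : ℝ) * (G + γ / t)) := Las.fin_pow2 _
  refine Lsn.las_ge ht hd ha1 hlo hup (Real.sqrt_nonneg _) hθ1 (Real.sqrt_nonneg _) hsq
    (Real.sqrt_nonneg _) hρσ' hhat hM
    (R := C ^ t * Real.sqrt (C * (n + 1)) * (2 : ℝ) ^ (-((n : ℝ) * ((H2 ω - G) / 2 - γ)))) ?_ ?_
  · intro m hm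
    have e1 : Real.sqrt S2 * Real.sqrt ((2 : ℝ) ^ ((n : ℝ) * (G + γ / t))) =
        Real.sqrt (C * (2 : ℝ) ^ ((n : ℝ) * (γ / t))) := by
      rw [← Real.sqrt_mul hS20.le, hS2, mul_assoc, ← Real.rpow_add (by norm_num)]
      congr 3
      ring
    rw [e1]
    have hge1 : 1 ≤ C * (2 : ℝ) ^ ((n : ℝ) * (γ / t)) := by
      have : 1 ≤ (2 : ℝ) ^ ((n : ℝ) * (γ / t)) := by
        apply Real.one_le_rpow (by norm_num)
        positivity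
      nlinarith
    have hs1 : 1 ≤ Real.sqrt (C * (2 : ℝ) ^ ((n : ℝ) * (γ / t))) := by
      rw [Real.one_le_sqrt]; exact hge1
    have e2 : Real.sqrt (C * (2 : ℝ) ^ ((n : ℝ) * (γ / t))) ^ m ≤
        C ^ t * (2 : ℝ) ^ ((n : ℝ) * (γ * (t - 1) / t)) := by
      have e3 : Real.sqrt (C * (2 : ℝ) ^ ((n : ℝ) * (γ / t))) ^ m ≤
          Real.sqrt (C * (2 : ℝ) ^ ((n : ℝ) * (γ / t))) ^ (2 * (t - 1)) :=
        pow_le_pow_right₀ hs1 (by omega)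
      refine e3.trans ?_
      rw [pow_mul, Real.sq_sqrt (by positivity), mul_pow, ← Real.rpow_natCast (2 ^ _) (t - 1),
        ← Real.rpow_mul (by norm_num), Nat.cast_sub ht]
      have e4 : (n : ℝ) * (γ / t) * ((t : ℝ) - (1 : ℕ)) = (n : ℝ) * (γ * (t - 1) / t) := by
        push_cast; ring
      rw [e4]
      apply mul_le_mul_of_nonneg_right _ (Las.fin_pow2 _).le
      exact pow_le_pow_right₀ hC1 (by omega)
    have e5 : (2 : ℝ) ^ ((n : ℝ) * (G + γ / t)) * Real.sqrt R2 =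
        Real.sqrt (C * (n + 1)) * (2 : ℝ) ^ ((n : ℝ) * (G + γ / t) - (n : ℝ) * (G + H2 ω) / 2) := by
      rw [hR2, Real.sqrt_mul (by positivity), Real.sqrt_eq_rpow ((2 : ℝ) ^ _),
        ← Real.rpow_mul (by norm_num), sub_eq_add_neg ((n : ℝ) * (G + γ / t)),
        Real.rpow_add (by norm_num)]
      have e6 : -((n : ℝ) * (G + H2 ω)) * (1 / 2) = -((n : ℝ) * (G + H2 ω) / 2) := by ring
      rw [e6]
      ring
    rw [e5]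
    calc Real.sqrt (C * (n + 1)) * (2 : ℝ) ^ ((n : ℝ) * (G + γ / t) - (n : ℝ) * (G + H2 ω) / 2) *
          Real.sqrt (C * (2 : ℝ) ^ ((n : ℝ) * (γ / t))) ^ m
        ≤ Real.sqrt (C * (n + 1)) * (2 : ℝ) ^ ((n : ℝ) * (G + γ / t) - (n : ℝ) * (G + H2 ω) / 2) *
          (C ^ t * (2 : ℝ) ^ ((n : ℝ) * (γ * (t - 1) / t))) :=
          mul_le_mul_of_nonneg_left e2 (by positivity)
      _ = C ^ t * Real.sqrt (C * (n + 1)) *
          ((2 : ℝ) ^ ((n : ℝ) * (G + γ / t) - (n : ℝ) * (G + H2 ω) / 2) *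
            (2 : ℝ) ^ ((n : ℝ) * (γ * (t - 1) / t))) := by ring
      _ = C ^ t * Real.sqrt (C * (n + 1)) * (2 : ℝ) ^ (-((n : ℝ) * ((H2 ω - G) / 2 - γ))) := by
          rw [← Real.rpow_add (by norm_num)]
          congr 2
          field_simp
          ring
      _ ≤ _ := le_rfl
  · have e1 : (1 + Real.sqrt T) ^ (3 * t ^ 2) ≤ 3 := num_pow (Real.sqrt_nonneg _) hθ3
    have hP := Las.fin_pow2 ((n : ℝ) * ((H2 ω - G) / 2 - γ))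
    have hinv : (2 : ℝ) ^ ((n : ℝ) * ((H2 ω - G) / 2 - γ)) *
        (2 : ℝ) ^ (-((n : ℝ) * ((H2 ω - G) / 2 - γ))) = 1 := by
      rw [← Real.rpow_add (by norm_num), add_neg_cancel, Real.rpow_zero]
    calc (t : ℝ) * 2 ^ t * (t : ℝ) ^ (2 * t) * (1 + Real.sqrt T) ^ (3 * t ^ 2) *
          (C ^ t * Real.sqrt (C * (n + 1)) * (2 : ℝ) ^ (-((n : ℝ) * ((H2 ω - G) / 2 - γ))))
        ≤ (t : ℝ) * 2 ^ t * (t : ℝ) ^ (2 * t) * 3 *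
          (C ^ t * Real.sqrt (C * (n + 1)) * (2 : ℝ) ^ (-((n : ℝ) * ((H2 ω - G) / 2 - γ)))) := by
          gcongr
      _ = ((t : ℝ) * 2 ^ t * (t : ℝ) ^ (2 * t) * 3 * (C ^ t * Real.sqrt (C * (n + 1)))) *
          (2 : ℝ) ^ (-((n : ℝ) * ((H2 ω - G) / 2 - γ))) := by ring
      _ ≤ (2 : ℝ) ^ ((n : ℝ) * ((H2 ω - G) / 2 - γ)) *
          (2 : ℝ) ^ (-((n : ℝ) * ((H2 ω - G) / 2 - γ))) :=
          mul_le_mul_of_nonneg_right hfin (Las.fin_pow2 _).le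
      _ = 1 := hinv

end Pool.Agent.Lib.MP_0430e4_lc.Lsn
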