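import Pool.Agent.Lib.MP_0430e4_lc.Lsn.Finc

/-!
# Find: the lower bound for the Lasserre hierarchy at all levels `t ≤ c n / log n`

PROOF. Copy of `Las.las_lower` (file Las/FIN.lean) with `num_range`, `num_theta` (`Q = (κ ^ 2)⁻¹`, `e = H2 (δ + η) - H2 δ`) and
`Lsn.fin_core`.
-/

set_option autoImplicit false

namespace Pool.Agent.Lib.MP_0430e4_lc.Lsn

open Finset Filter
open Las (H2 ball)

theorem las_lower {δ γ : ℝ} (h0 : 0 < δ) (h1 : δ < 1 / 2)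
    (hγ : γ < (H2 (1 / 2 - Real.sqrt (δ * (1 - δ))) - (1 - H2 δ)) / 2) :
    ∃ c : ℝ, 0 < c ∧ ∃ n0 : ℕ, ∀ n ≥ n0, ∀ t : ℕ, 1 ≤ t → (t : ℝ) ≤ c * n / Real.log n →
      (2 : ℝ) ^ ((n : ℝ) * (1 - H2 δ + γ / t)) ≤ Las.las t n ⌈δ * n⌉₊ := by
  have hgap := Las.gap h0 h1
  have hγ' : max γ 0 < (H2 (1 / 2 - Real.sqrt (δ * (1 - δ))) - (1 - H2 δ)) / 2 :=
    max_lt hγ (by linarith)
  obtain ⟨ω, η, κ, hω, hω2, hη, hδη, hκ, hκ1, hγω, hH, hc⟩ := Las.params h0 h1 hγ'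
  have he : 0 < (H2 ω - (1 - H2 δ)) / 2 - max γ 0 := by linarith
  have hC : (1 : ℝ) ≤ 1 + (κ ^ 2)⁻¹ := by
    have : 0 < (κ ^ 2)⁻¹ := by positivity
    linarith
  obtain ⟨c, hc0, hfin⟩ := num_range hC he
  refine ⟨c, hc0, ?_⟩
  have hωG : 0 < H2 ω - (1 - H2 δ) := by
    have := le_max_right γ 0
    linarith
  have hev1 := Las.params_nat h0 hω hω2 hη hδη hκ hc
  have hev2 := num_theta ((κ ^ 2)⁻¹) (e := H2 (δ + η) - H2 δ) (by linarith)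
  have hev3 := Las.num1_ev hωG
  have hall := (hev1.and hev2).and (hev3.and hfin)
  obtain ⟨n0, hn0⟩ := Filter.eventually_atTop.1 hall
  refine ⟨n0, fun n hn t ht htc => ?_⟩
  obtain ⟨⟨⟨k, d2, hk, hd2, hdd, hd, hωk, hδd2, hcc⟩, hθ⟩, hρσ, hf⟩ := hn0 n hn
  obtain ⟨htn, hft⟩ := hf t ht htc
  have hmain := fin_core h0 h1 hω hω2 hη hδη hκ (le_max_right γ 0) ht htn hk hd2 hdd hd hωk hδd2 hcc
    hθ hρσ hft
  refine le_trans ?_ hmain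
  apply Real.rpow_le_rpow_of_exponent_le (by norm_num)
  apply mul_le_mul_of_nonneg_left _ (Nat.cast_nonneg n)
  have htR0 : (0 : ℝ) < t := by exact_mod_cast ht
  have : γ / t ≤ max γ 0 / t := div_le_div_of_nonneg_right (le_max_left γ 0) htR0.le
  linarith

end Pool.Agent.Lib.MP_0430e4_lc.Lsn
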