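import Pool.Agent.Lib.MP_0430e4_lc.Lsn.Stm

/-!
# Nra: a set of vertices on one side is removed

PROOF. `Finset.induction_on` over `I` (resp. `J`). Step `insert i I`: the kernel of `I`, `K α β * ∏ i' ∈ I, W i' (α i') β`, does
not depend on `α i` (`hK`, and `Function.update_of_ne` for `i' ∈ I`, `i' ≠ i`); `bd_left` with `W i`; the product is
`prod_insert` up to `ring`, the exponent `card_insert_of_notMem`, `pow_succ`.
-/

set_option autoImplicit false

namespace Pool.Agent.Lib.MP_0430e4_lc.Lsn

open Finset

variable {V : Type*} [Fintype V] [DecidableEq V]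
variable {ι κ : Type*} [Fintype ι] [DecidableEq ι] [Fintype κ] [DecidableEq κ]

theorem bd_left_set [Nonempty V] (I : Finset ι) {K : (ι → V) → (κ → V) → ℝ}
    {W : ι → V → (κ → V) → ℝ} {s c : ℝ} (hc : 0 ≤ c)
    (hK : ∀ i ∈ I, ∀ α β x, K (Function.update α i x) β = K α β)
    (hW : ∀ i ∈ I, ∀ β, ∑ x, W i x β ^ 2 ≤ (Fintype.card V : ℝ) * s ^ 2) (hB : BD c K) :
    BD ((s ^ 2) ^ I.card * c) (fun α β => K α β * ∏ i ∈ I, W i (α i) β) := by
  induction I using Finset.induction_on with
  | empty =>
    simp only [card_empty, pow_zero, one_mul, prod_empty, mul_one]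
    exact hB
  | insert i I hi ih =>
    have h1 := ih (fun i' hi' => hK i' (mem_insert_of_mem hi'))
      (fun i' hi' => hW i' (mem_insert_of_mem hi'))
    have h2 := bd_left (V := V) i (K := fun α β => K α β * ∏ i' ∈ I, W i' (α i') β) (W := W i)
      (s := s) (c := (s ^ 2) ^ I.card * c) (by positivity) (fun α β x => by
        show K (Function.update α i x) β * ∏ i' ∈ I, W i' (Function.update α i x i') β = _
        rw [hK i (mem_insert_self i I)]
        congr 1
        refine prod_congr rfl fun i' hi' => ?_
        rw [Function.update_of_ne (show i' ≠ i from fun h => hi (by rw [← h]; exact hi'))])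
      (hW i (mem_insert_self i I)) h1
    have h3 : s ^ 2 * ((s ^ 2) ^ I.card * c) = (s ^ 2) ^ (insert i I).card * c := by
      rw [card_insert_of_notMem hi, pow_succ]
      ring
    rw [h3] at h2
    have h4 : (fun α β => K α β * ∏ i' ∈ insert i I, W i' (α i') β) =
        (fun α β => K α β * (∏ i' ∈ I, W i' (α i') β) * W i (α i) β) := by
      funext α β
      rw [prod_insert hi]
      ring
    rw [h4]
    exact h2

theorem bd_right_set [Nonempty V] (J : Finset κ) {K : (ι → V) → (κ → V) → ℝ}
    {W : κ → V → (ι → V) → ℝ} {s c : ℝ} (hc : 0 ≤ c)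
    (hK : ∀ j ∈ J, ∀ α β y, K α (Function.update β j y) = K α β)
    (hW : ∀ j ∈ J, ∀ α, ∑ y, W j y α ^ 2 ≤ (Fintype.card V : ℝ) * s ^ 2) (hB : BD c K) :
    BD ((s ^ 2) ^ J.card * c) (fun α β => K α β * ∏ j ∈ J, W j (β j) α) := by
  induction J using Finset.induction_on with
  | empty =>
    simp only [card_empty, pow_zero, one_mul, prod_empty, mul_one]
    exact hB
  | insert j J hj ih =>
    have h1 := ih (fun j' hj' => hK j' (mem_insert_of_mem hj'))
      (fun j' hj' => hW j' (mem_insert_of_mem hj'))
    have h2 := bd_right (V := V) j (K := fun α β => K α β * ∏ j' ∈ J, W j' (β j') α) (W := W j)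
      (s := s) (c := (s ^ 2) ^ J.card * c) (by positivity) (fun α β y => by
        show K α (Function.update β j y) * ∏ j' ∈ J, W j' (Function.update β j y j') α = _
        rw [hK j (mem_insert_self j J)]
        congr 1
        refine prod_congr rfl fun j' hj' => ?_
        rw [Function.update_of_ne (show j' ≠ j from fun h => hj (by rw [← h]; exact hj'))])
      (hW j (mem_insert_self j J)) h1
    have h3 : s ^ 2 * ((s ^ 2) ^ J.card * c) = (s ^ 2) ^ (insert j J).card * c := by
      rw [card_insert_of_notMem hj, pow_succ]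
      ring
    rw [h3] at h2
    have h4 : (fun α β => K α β * ∏ j' ∈ insert j J, W j' (β j') α) =
        (fun α β => K α β * (∏ j' ∈ J, W j' (β j') α) * W j (β j) α) := by
      funext α β
      rw [prod_insert hj]
      ring
    rw [h4]
    exact h2

end Pool.Agent.Lib.MP_0430e4_lc.Lsn
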