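import Pool.Agent.Lib.MP_0430e4_lc.Lsn.Defs

/-!
# Stp: one pair `(i, j)` with an edge is removed

PROOF. Write `φ x y = Φ x y - 1`, `N = card V`.

`op_sq`: `h.op` with `p x = ∑ y, φ x y * q y`, `r = q`: `T ^ 2 ≤ (N ρ) ^ 2 * (T * ∑ q ^ 2)` for `T` the left side; divide by `T`
(as `hT` in the proof of `Las.step_edge`, file Las/GRN.lean).

`step_pair`: given `p`, `r`, let `S` be the double sum, `Q x β = m x β * ∑ y, φ x y * r (Function.update β j y)`. By
`Las.sum_update j` (sum over `β`; `hK2`, `hmj`, `Function.update_self`): `N * S = ∑ α, ∑ β, K α β * p α * Q (α i) β`.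
By `Las.sum_update i` and `hK1`: `N * (N * S) = ∑ x, ∑ α, ∑ β, K α β * p (Function.update α i x) * Q x β`. For every `x`
`hB (fun α => p (Function.update α i x)) (Q x)`; then `sum_sq_le_sum_mul_sum_of_sq_le_mul` (as in `Las.step_vertex`):
`(N * (N * S)) ^ 2 ≤ (c * (N * P)) * ∑ x, ∑ β, Q x β ^ 2` with `P = ∑ p ^ 2`, `R = ∑ r ^ 2`. Finally
`∑ x, ∑ β, Q x β ^ 2 ≤ ∑ β, s ^ 2 * ∑ x, (∑ y, φ x y * r (Function.update β j y)) ^ 2 ≤ ∑ β, s ^ 2 * ((N ρ) ^ 2 * ∑ y, r (Function.update β j y) ^ 2)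
= s ^ 2 * (N ρ) ^ 2 * (N * R)` (`op_sq`, `sum_comm`, `Las.sum_update j (fun β => r β ^ 2)`). So `N ^ 4 * S ^ 2 ≤ N ^ 4 * ((ρ s) ^ 2 * c * (P * R))`.
-/

set_option autoImplicit false

namespace Pool.Agent.Lib.MP_0430e4_lc.Lsn

open Finset

variable {V : Type*} [Fintype V] [DecidableEq V] {Φ : V → V → ℝ} {θ σ ρ : ℝ}
variable {ι κ : Type*} [Fintype ι] [DecidableEq ι] [Fintype κ] [DecidableEq κ]

theorem op_sq (h : Las.Ker Φ θ σ ρ) (q : V → ℝ) :
    ∑ x, (∑ y, (Φ x y - 1) * q y) ^ 2 ≤ ((Fintype.card V : ℝ) * ρ) ^ 2 * ∑ y, q y ^ 2 := by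
  set T : ℝ := ∑ x, (∑ y, (Φ x y - 1) * q y) ^ 2 with hTdef
  have hT0 : 0 ≤ T := sum_nonneg fun _ _ => sq_nonneg _
  have h1 := h.op (fun x => ∑ y, (Φ x y - 1) * q y) q
  have h2 : ∑ x, ∑ y, (Φ x y - 1) * (∑ y', (Φ x y' - 1) * q y') * q y = T := by
    rw [hTdef]
    refine sum_congr rfl fun x _ => ?_
    rw [sq, sum_mul]
    exact sum_congr rfl fun y _ => by ring
  rw [h2, ← hTdef] at h1
  rcases hT0.eq_or_lt with h3 | h3
  · rw [← h3]
    exact mul_nonneg (sq_nonneg _) (sum_nonneg fun _ _ => sq_nonneg _)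
  · have h4 : T * T ≤ (((Fintype.card V : ℝ) * ρ) ^ 2 * ∑ y, q y ^ 2) * T := by
      calc T * T = T ^ 2 := by ring
        _ ≤ ((Fintype.card V : ℝ) * ρ) ^ 2 * (T * ∑ y, q y ^ 2) := h1
        _ = (((Fintype.card V : ℝ) * ρ) ^ 2 * ∑ y, q y ^ 2) * T := by ring
    exact le_of_mul_le_mul_right h4 h3

theorem step_pair [Nonempty V] (h : Las.Ker Φ θ σ ρ) (i : ι) (j : κ)
    {K : (ι → V) → (κ → V) → ℝ} {m : V → (κ → V) → ℝ} {s c : ℝ} (hc : 0 ≤ c) (hs : 0 ≤ s)
    (hK1 : ∀ α β x, K (Function.update α i x) β = K α β)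
    (hK2 : ∀ α β y, K α (Function.update β j y) = K α β)
    (hm : ∀ x β, |m x β| ≤ s) (hmj : ∀ x β y, m x (Function.update β j y) = m x β)
    (hB : BD c K) :
    BD ((ρ * s) ^ 2 * c) (fun α β => K α β * ((Φ (α i) (β j) - 1) * m (α i) β)) := by
  intro p r
  set N : ℝ := (Fintype.card V : ℝ) with hN
  have hN0 : 0 < N := by
    rw [hN]; exact_mod_cast Fintype.card_pos
  set P : ℝ := ∑ α, p α ^ 2 with hP
  set R : ℝ := ∑ β, r β ^ 2 with hR
  have hP0 : 0 ≤ P := sum_nonneg fun _ _ => sq_nonneg _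
  have hR0 : 0 ≤ R := sum_nonneg fun _ _ => sq_nonneg _
  set Q : V → (κ → V) → ℝ := fun x β =>
    m x β * ∑ y, (Φ x y - 1) * r (Function.update β j y) with hQ
  set S : ℝ := ∑ α, ∑ β, K α β * ((Φ (α i) (β j) - 1) * m (α i) β) * p α * r β with hS
  have e1 : N * S = ∑ α, ∑ β, K α β * p α * Q (α i) β := by
    rw [hS, mul_sum]
    refine sum_congr rfl fun α _ => ?_
    rw [hN, ← Las.sum_update j
      (fun β => K α β * ((Φ (α i) (β j) - 1) * m (α i) β) * p α * r β), sum_comm]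
    refine sum_congr rfl fun β _ => ?_
    simp only [hQ, hK2, hmj, Function.update_self, mul_sum]
    exact sum_congr rfl fun y _ => by ring
  have e2 : N * (N * S) = ∑ x : V, ∑ α, ∑ β, K α β * p (Function.update α i x) * Q x β := by
    rw [e1, hN, ← Las.sum_update i (fun α => ∑ β, K α β * p α * Q (α i) β)]
    refine sum_congr rfl fun x _ => sum_congr rfl fun α _ => sum_congr rfl fun β _ => ?_
    simp only [hK1, Function.update_self]
  have h2 : (∑ x : V, ∑ α, ∑ β, K α β * p (Function.update α i x) * Q x β) ^ 2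
      ≤ (∑ x : V, c * ∑ α, p (Function.update α i x) ^ 2) * ∑ x : V, ∑ β, Q x β ^ 2 := by
    refine sum_sq_le_sum_mul_sum_of_sq_le_mul _ (fun x _ => ?_) (fun x _ => ?_) (fun x _ => ?_)
    · exact mul_nonneg hc (sum_nonneg fun _ _ => sq_nonneg _)
    · exact sum_nonneg fun _ _ => sq_nonneg _
    · have := hB (fun α => p (Function.update α i x)) (Q x)
      rw [mul_assoc]
      exact this
  have h3 : ∑ x : V, c * ∑ α, p (Function.update α i x) ^ 2 = c * (N * P) := by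
    rw [← mul_sum, Las.sum_update i (fun α => p α ^ 2)]
  have h4 : ∑ x : V, ∑ β, Q x β ^ 2 ≤ s ^ 2 * (N * ρ) ^ 2 * (N * R) := by
    rw [sum_comm]
    calc ∑ β, ∑ x, Q x β ^ 2
        ≤ ∑ β, s ^ 2 * ((N * ρ) ^ 2 * ∑ y, r (Function.update β j y) ^ 2) := by
          refine sum_le_sum fun β _ => ?_
          refine le_trans ?_ (mul_le_mul_of_nonneg_left
            (op_sq h fun y => r (Function.update β j y)) (sq_nonneg s))
          rw [mul_sum]
          refine sum_le_sum fun x _ => ?_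
          simp only [hQ]
          rw [mul_pow]
          refine mul_le_mul_of_nonneg_right ?_ (sq_nonneg _)
          rw [← sq_abs (m x β)]
          exact pow_le_pow_left₀ (abs_nonneg _) (hm x β) 2
      _ = s ^ 2 * (N * ρ) ^ 2 * (N * R) := by
          rw [← mul_sum, ← mul_sum, sum_comm, Las.sum_update j (fun β => r β ^ 2)]
          ring
  have h5 : N ^ 4 * S ^ 2 ≤ N ^ 4 * ((ρ * s) ^ 2 * c * (P * R)) := by
    calc N ^ 4 * S ^ 2 = (N * (N * S)) ^ 2 := by ring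
      _ ≤ c * (N * P) * (s ^ 2 * (N * ρ) ^ 2 * (N * R)) := by
        rw [e2]
        refine h2.trans ?_
        rw [h3]
        exact mul_le_mul_of_nonneg_left h4 (by positivity)
      _ = N ^ 4 * ((ρ * s) ^ 2 * c * (P * R)) := by ring
  exact le_of_mul_le_mul_left h5 (by positivity)

end Pool.Agent.Lib.MP_0430e4_lc.Lsn
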