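import Pool.Agent.Lib.MP_0430e4_lc.Lsn.Stm
import Pool.Agent.Lib.MP_0430e4_lc.Lsn.Stp

/-!
# Nrp: the designated pairs

PROOF. `Finset.induction_on_min` over `D` (the new element `j₀` is smaller than all `j ∈ D`). Empty: `bd_one`
(`Fintype.card_fin`). Step: the kernel of `insert j₀ D` is the kernel of `D` times
`(Φ (α (d j₀)) (β j₀) - 1) * ∏ j' ∈ D, (1 + (Φ (α (d j₀)) (β j') - 1))`, because `(insert j₀ D).filter (j < ·) = D.filter (j < ·)` for
`j ∈ D` (as `j₀ < j`) and `(insert j₀ D).filter (j₀ < ·) = D`. `step_pair` with `i = d j₀`, `j = j₀`, `s = (1 + θ) ^ b`,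
`m x β = ∏ j' ∈ (insert j₀ D).filter (j₀ < ·), (1 + (Φ x (β j') - 1))`: `0 ≤ 1 + (Φ - 1) ≤ 1 + θ` and at most `b` factors
(`Finset.prod_le_pow_card` or `prod_le_prod` with a constant, `card_le_univ`, `Fintype.card_fin`, `pow_le_pow_right₀`); `m` does not
depend on `β j₀`. The kernel of `D` does not depend on `α (d j₀)` (`d` is injective on `insert j₀ D`) nor on `β j₀`.
-/

set_option autoImplicit false

namespace Pool.Agent.Lib.MP_0430e4_lc.Lsn

open Finset

variable {V : Type*} [Fintype V] [DecidableEq V] {Φ : V → V → ℝ} {θ σ ρ : ℝ}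

theorem pair_chain [Nonempty V] (h : Las.Ker Φ θ σ ρ) {a b : ℕ} (d : Fin b → Fin a)
    (D : Finset (Fin b)) (hd : Set.InjOn d D) :
    BD (((ρ * (1 + θ) ^ b) ^ 2) ^ D.card * (Fintype.card V : ℝ) ^ (a + b))
      (fun (α : Fin a → V) (β : Fin b → V) => ∏ j ∈ D, ((Φ (α (d j)) (β j) - 1) *
        ∏ j' ∈ D.filter (fun j' => j < j'), (1 + (Φ (α (d j)) (β j') - 1)))) := by
  induction D using Finset.induction_on_min with
  | empty =>
    simp only [card_empty, pow_zero, one_mul, prod_empty]
    have h1 := bd_one (V := V) (ι := Fin a) (κ := Fin b)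
    rw [Fintype.card_fin, Fintype.card_fin] at h1
    exact h1
  | insert j₀ D hlt ih =>
    have hj₀ : j₀ ∉ D := fun hm => lt_irrefl _ (hlt j₀ hm)
    have hd' : Set.InjOn d D := hd.mono (by
      intro x hx
      exact mem_coe.mpr (mem_insert_of_mem (mem_coe.mp hx)))
    have ih' := ih hd'
    have hne : ∀ j ∈ D, d j ≠ d j₀ := by
      intro j hj he
      have h1 : j = j₀ := hd (mem_coe.mpr (mem_insert_of_mem hj))
        (mem_coe.mpr (mem_insert_self _ _)) he
      rw [h1] at hj
      exact hj₀ hj
    have hne2 : ∀ j ∈ D, j ≠ j₀ := fun j hj he => hj₀ (he ▸ hj)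
    have hθ := h.θ0
    have hf1 : (insert j₀ D).filter (fun j' => j₀ < j') = D := by
      ext j
      rw [mem_filter, mem_insert]
      constructor
      · rintro ⟨h1 | h1, h2⟩
        · rw [h1] at h2
          exact absurd h2 (lt_irrefl _)
        · exact h1
      · intro h1
        exact ⟨Or.inr h1, hlt j h1⟩
    have hf2 : ∀ j ∈ D, (insert j₀ D).filter (fun j' => j < j') = D.filter (fun j' => j < j') := by
      intro j hj
      ext j'
      rw [mem_filter, mem_filter, mem_insert]
      constructor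
      · rintro ⟨h1 | h1, h2⟩
        · rw [h1] at h2
          exact absurd (h2.trans (hlt j hj)) (lt_irrefl _)
        · exact ⟨h1, h2⟩
      · rintro ⟨h1, h2⟩
        exact ⟨Or.inr h1, h2⟩
    have hs : 0 ≤ (1 + θ) ^ b := by positivity
    have hc : 0 ≤ ((ρ * (1 + θ) ^ b) ^ 2) ^ D.card * (Fintype.card V : ℝ) ^ (a + b) := by
      positivity
    have key := step_pair h (d j₀) j₀ (K := fun (α : Fin a → V) (β : Fin b → V) =>
        ∏ j ∈ D, ((Φ (α (d j)) (β j) - 1) *
          ∏ j' ∈ D.filter (fun j' => j < j'), (1 + (Φ (α (d j)) (β j') - 1))))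
      (m := fun x β => ∏ j' ∈ D, (1 + (Φ x (β j') - 1))) (s := (1 + θ) ^ b) hc hs
      (fun α β x => by
        refine prod_congr rfl fun j hj => ?_
        rw [Function.update_of_ne (hne j hj)])
      (fun α β y => by
        refine prod_congr rfl fun j hj => ?_
        rw [Function.update_of_ne (hne2 j hj)]
        congr 1
        refine prod_congr rfl fun j' hj' => ?_
        rw [Function.update_of_ne (hne2 j' (mem_filter.mp hj').1)])
      (fun x β => by
        have h0 : ∀ j' ∈ D, 0 ≤ 1 + (Φ x (β j') - 1) := by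
          intro j' _
          have := h.nonneg x (β j')
          linarith
        rw [abs_of_nonneg (prod_nonneg h0)]
        calc ∏ j' ∈ D, (1 + (Φ x (β j') - 1)) ≤ ∏ _j' ∈ D, (1 + θ) := by
              refine prod_le_prod h0 fun j' _ => ?_
              have := h.le x (β j')
              linarith
          _ = (1 + θ) ^ D.card := by rw [prod_const]
          _ ≤ (1 + θ) ^ b := by
              refine pow_le_pow_right₀ (by linarith) ?_
              have := card_le_univ D
              rwa [Fintype.card_fin] at this)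
      (fun x β y => by
        refine prod_congr rfl fun j hj => ?_
        rw [Function.update_of_ne (hne2 j hj)])
      ih'
    have e1 : ((ρ * (1 + θ) ^ b) ^ 2) ^ (insert j₀ D).card * (Fintype.card V : ℝ) ^ (a + b) =
        (ρ * (1 + θ) ^ b) ^ 2 *
          (((ρ * (1 + θ) ^ b) ^ 2) ^ D.card * (Fintype.card V : ℝ) ^ (a + b)) := by
      rw [card_insert_of_notMem hj₀, pow_succ']
      ring
    rw [e1]
    convert key using 3 with α β
    rw [prod_insert hj₀, hf1, mul_comm]
    congr 1
    refine prod_congr rfl fun j hj => ?_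
    rw [hf2 j hj]

end Pool.Agent.Lib.MP_0430e4_lc.Lsn
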