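import Pool.Agent.Lib.MP_0430e4_lc.Lsn.Defs

/-!
# Nrv: the sums of squares

PROOF. `nrv_prod_sub_one`: `Finset.induction_on s`: `∏_{insert i s} (1 + z) - 1 = (1 + z i) * (∏_s (1 + z) - 1) + z i`, so the absolute value is
at most `(1 + θ) * (1 + θ) ^ #s * ∑_s |z| + |z i| ≤ (1 + θ) ^ (#s + 1) * (∑_s |z| + |z i|)`.

`nrv_right`: the square is at most `(1 + θ) ^ (2 a) * (∑ i ∈ s, |Φ (α i) y - 1|) ^ 2 ≤ (1 + θ) ^ (2 a) * a * ∑ i ∈ s, (Φ (α i) y - 1) ^ 2`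
(`sq_sum_le_card_mul_sum_sq`, `card_le_univ`); sum over `y` (`sum_comm`): `h.sq (α i)`, at most `a` indices `i`.

`nrv_left`: `|W| ≤ |Φ x z - 1| * (1 + θ) ^ b` and `∑ x, (Φ x z - 1) ^ 2 ≤ N σ ^ 2` by `h.symm`, `h.sq z`.
-/

set_option autoImplicit false

namespace Pool.Agent.Lib.MP_0430e4_lc.Lsn

open Finset

variable {V : Type*} [Fintype V] [DecidableEq V] {Φ : V → V → ℝ} {θ σ ρ : ℝ}

theorem nrv_prod_sub_one {τ : Type*} [DecidableEq τ] {θ : ℝ} (hθ : 0 ≤ θ) (s : Finset τ)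
    (z : τ → ℝ) (h1 : ∀ i ∈ s, 0 ≤ 1 + z i) (h2 : ∀ i ∈ s, z i ≤ θ) :
    |∏ i ∈ s, (1 + z i) - 1| ≤ (1 + θ) ^ s.card * ∑ i ∈ s, |z i| := by
  induction s using Finset.induction_on with
  | empty => simp
  | insert i s hi ih =>
    have ih' := ih (fun j hj => h1 j (mem_insert_of_mem hj)) (fun j hj => h2 j (mem_insert_of_mem hj))
    have h3 := h1 i (mem_insert_self i s)
    have h4 := h2 i (mem_insert_self i s)
    rw [prod_insert hi, sum_insert hi, card_insert_of_notMem hi]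
    have e1 : (1 + z i) * ∏ j ∈ s, (1 + z j) - 1 = (1 + z i) * (∏ j ∈ s, (1 + z j) - 1) + z i := by ring
    have h5 : (1 : ℝ) ≤ (1 + θ) ^ (s.card + 1) := one_le_pow₀ (by linarith)
    have h6 : |(1 + z i) * (∏ j ∈ s, (1 + z j) - 1)| ≤ (1 + θ) * ((1 + θ) ^ s.card * ∑ j ∈ s, |z j|) := by
      rw [abs_mul, abs_of_nonneg h3]
      exact mul_le_mul (by linarith) ih' (abs_nonneg _) (by linarith)
    have h7 : |z i| ≤ (1 + θ) ^ (s.card + 1) * |z i| := le_mul_of_one_le_left (abs_nonneg _) h5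
    rw [e1]
    refine (abs_add_le _ _).trans ?_
    calc |(1 + z i) * (∏ j ∈ s, (1 + z j) - 1)| + |z i|
        ≤ (1 + θ) * ((1 + θ) ^ s.card * ∑ j ∈ s, |z j|) + (1 + θ) ^ (s.card + 1) * |z i| := add_le_add h6 h7
      _ = (1 + θ) ^ (s.card + 1) * (|z i| + ∑ j ∈ s, |z j|) := by ring

theorem nrv_prod_le {τ : Type*} [DecidableEq τ] {θ : ℝ} (hθ : 0 ≤ θ) {m : ℕ} (s : Finset τ)
    (hs : s.card ≤ m) (z : τ → ℝ) (h1 : ∀ i ∈ s, 0 ≤ 1 + z i) (h2 : ∀ i ∈ s, z i ≤ θ) :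
    |∏ i ∈ s, (1 + z i)| ≤ (1 + θ) ^ m := by
  rw [abs_of_nonneg (prod_nonneg h1)]
  calc ∏ i ∈ s, (1 + z i) ≤ ∏ _i ∈ s, (1 + θ) := by
        refine prod_le_prod h1 fun i hi => ?_
        have := h2 i hi
        linarith
    _ = (1 + θ) ^ s.card := by rw [prod_const]
    _ ≤ (1 + θ) ^ m := pow_le_pow_right₀ (by linarith) hs

theorem nrv_right (h : Las.Ker Φ θ σ ρ) {a : ℕ} (s : Finset (Fin a)) (α : Fin a → V) :
    ∑ y, (∏ i ∈ s, (1 + (Φ (α i) y - 1)) - 1) ^ 2 ≤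
      (Fintype.card V : ℝ) * (a * σ * (1 + θ) ^ a) ^ 2 := by
  have hθ := h.θ0
  have hcs : s.card ≤ a := by
    have := card_le_univ s
    rwa [Fintype.card_fin] at this
  have hcs' : (s.card : ℝ) ≤ a := by exact_mod_cast hcs
  have hpt : ∀ y, (∏ i ∈ s, (1 + (Φ (α i) y - 1)) - 1) ^ 2 ≤
      ((1 + θ) ^ a) ^ 2 * (a * ∑ i ∈ s, (Φ (α i) y - 1) ^ 2) := by
    intro y
    have h1 := nrv_prod_sub_one hθ s (fun i => Φ (α i) y - 1)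
      (fun i _ => by have := h.nonneg (α i) y; linarith) (fun i _ => by have := h.le (α i) y; linarith)
    have h2 : (1 + θ) ^ s.card ≤ (1 + θ) ^ a := pow_le_pow_right₀ (by linarith) hcs
    have h3 : 0 ≤ ∑ i ∈ s, |Φ (α i) y - 1| := sum_nonneg fun i _ => abs_nonneg _
    have h4 : |∏ i ∈ s, (1 + (Φ (α i) y - 1)) - 1| ≤ (1 + θ) ^ a * ∑ i ∈ s, |Φ (α i) y - 1| :=
      h1.trans (mul_le_mul_of_nonneg_right h2 h3)
    have h5 : (∑ i ∈ s, |Φ (α i) y - 1|) ^ 2 ≤ a * ∑ i ∈ s, (Φ (α i) y - 1) ^ 2 := by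
      have h6 := sq_sum_le_card_mul_sum_sq (s := s) (f := fun i => |Φ (α i) y - 1|)
      have h7 : ∑ i ∈ s, |Φ (α i) y - 1| ^ 2 = ∑ i ∈ s, (Φ (α i) y - 1) ^ 2 :=
        sum_congr rfl fun i _ => sq_abs _
      rw [h7] at h6
      refine h6.trans ?_
      exact mul_le_mul_of_nonneg_right hcs' (sum_nonneg fun i _ => sq_nonneg _)
    rw [← sq_abs]
    calc |∏ i ∈ s, (1 + (Φ (α i) y - 1)) - 1| ^ 2 ≤ ((1 + θ) ^ a * ∑ i ∈ s, |Φ (α i) y - 1|) ^ 2 :=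
          pow_le_pow_left₀ (abs_nonneg _) h4 2
      _ = ((1 + θ) ^ a) ^ 2 * (∑ i ∈ s, |Φ (α i) y - 1|) ^ 2 := by rw [mul_pow]
      _ ≤ ((1 + θ) ^ a) ^ 2 * (a * ∑ i ∈ s, (Φ (α i) y - 1) ^ 2) :=
          mul_le_mul_of_nonneg_left h5 (sq_nonneg _)
  have hsum : ∑ y, ∑ i ∈ s, (Φ (α i) y - 1) ^ 2 ≤ a * ((Fintype.card V : ℝ) * σ ^ 2) := by
    rw [sum_comm]
    calc ∑ i ∈ s, ∑ y, (Φ (α i) y - 1) ^ 2 ≤ ∑ _i ∈ s, (Fintype.card V : ℝ) * σ ^ 2 :=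
          sum_le_sum fun i _ => h.sq (α i)
      _ = s.card * ((Fintype.card V : ℝ) * σ ^ 2) := by rw [sum_const, nsmul_eq_mul]
      _ ≤ a * ((Fintype.card V : ℝ) * σ ^ 2) := mul_le_mul_of_nonneg_right hcs' (by positivity)
  calc ∑ y, (∏ i ∈ s, (1 + (Φ (α i) y - 1)) - 1) ^ 2
      ≤ ∑ y, ((1 + θ) ^ a) ^ 2 * (a * ∑ i ∈ s, (Φ (α i) y - 1) ^ 2) := sum_le_sum fun y _ => hpt y
    _ = ((1 + θ) ^ a) ^ 2 * (a * ∑ y, ∑ i ∈ s, (Φ (α i) y - 1) ^ 2) := by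
        rw [← mul_sum, ← mul_sum]
    _ ≤ ((1 + θ) ^ a) ^ 2 * (a * (a * ((Fintype.card V : ℝ) * σ ^ 2))) := by
        refine mul_le_mul_of_nonneg_left ?_ (sq_nonneg _)
        exact mul_le_mul_of_nonneg_left hsum (Nat.cast_nonneg a)
    _ = (Fintype.card V : ℝ) * (a * σ * (1 + θ) ^ a) ^ 2 := by ring

theorem nrv_left (h : Las.Ker Φ θ σ ρ) {b : ℕ} (s : Finset (Fin b)) (z : V) (β : Fin b → V) :
    ∑ x, ((Φ x z - 1) * ∏ j ∈ s, (1 + (Φ x (β j) - 1))) ^ 2 ≤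
      (Fintype.card V : ℝ) * (σ * (1 + θ) ^ b) ^ 2 := by
  have hθ := h.θ0
  have hcs : s.card ≤ b := by
    have := card_le_univ s
    rwa [Fintype.card_fin] at this
  have hpt : ∀ x, ((Φ x z - 1) * ∏ j ∈ s, (1 + (Φ x (β j) - 1))) ^ 2 ≤
      ((1 + θ) ^ b) ^ 2 * (Φ z x - 1) ^ 2 := by
    intro x
    have h1 := nrv_prod_le hθ s hcs (fun j => Φ x (β j) - 1)
      (fun j _ => by have := h.nonneg x (β j); linarith) (fun j _ => by have := h.le x (β j); linarith)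
    have h2 : (∏ j ∈ s, (1 + (Φ x (β j) - 1))) ^ 2 ≤ ((1 + θ) ^ b) ^ 2 := by
      rw [← sq_abs]
      exact pow_le_pow_left₀ (abs_nonneg _) h1 2
    rw [mul_pow, h.symm x z, mul_comm]
    exact mul_le_mul_of_nonneg_right h2 (sq_nonneg _)
  calc ∑ x, ((Φ x z - 1) * ∏ j ∈ s, (1 + (Φ x (β j) - 1))) ^ 2
      ≤ ∑ x, ((1 + θ) ^ b) ^ 2 * (Φ z x - 1) ^ 2 := sum_le_sum fun x _ => hpt x
    _ = ((1 + θ) ^ b) ^ 2 * ∑ x, (Φ z x - 1) ^ 2 := by rw [← mul_sum]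
    _ ≤ ((1 + θ) ^ b) ^ 2 * ((Fintype.card V : ℝ) * σ ^ 2) :=
        mul_le_mul_of_nonneg_left (h.sq z) (sq_nonneg _)
    _ = (Fintype.card V : ℝ) * (σ * (1 + θ) ^ b) ^ 2 := by ring

end Pool.Agent.Lib.MP_0430e4_lc.Lsn
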