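import Pool.Agent.Lib.MP_0430e4_lc.Lsn.Defs

/-!
# Ptk: the factors of a pattern, sorted for the norm bound

PROOF. Split `∏ j` into `j ∈ dom f` and `j ∉ dom f` (`Finset.prod_sdiff`, `col` unfolds by `if_pos`, `if_neg`, `mem_filter`). The
product over `dom f` of `(∏ i ∈ eqs f j, x i j) * ∏ i ∈ lts f j, (1 + x i j)` is `∏ i, (x i (f i) * ∏ j' ∈ (dom f).filter (f i < ·), (1 + x i j'))`:
`∏ j ∈ dom f, ∏ i ∈ eqs f j, x i j = ∏ i, x i (f i)` (`prod_fiberwise_of_maps_to`-like, `f i ∈ dom f`), and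
`∏ j ∈ dom f, ∏ i ∈ lts f j, (1 + x i j) = ∏ i, ∏ j' ∈ (dom f).filter (f i < ·), (1 + x i j')` (`prod_comm'`). Then split `∏ i` into
`(dom f).image d` and the rest (`prod_sdiff`), `prod_image` (`d` is injective on `dom f` because `f (d j) = j`), and `f (d j) = j`.
-/

set_option autoImplicit false

namespace Pool.Agent.Lib.MP_0430e4_lc.Lsn

open Finset

theorem ptk_dom {a b : ℕ} (f : Fin a → Fin b) (i : Fin a) : f i ∈ dom f := by
  unfold dom eqs
  rw [mem_filter]
  exact ⟨mem_univ _, i, by simp⟩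

/-- designated vertices -/
theorem ptk_des {a b : ℕ} (ha : 1 ≤ a) (f : Fin a → Fin b) :
    ∃ d : Fin b → Fin a, ∀ j ∈ dom f, f (d j) = j := by
  have h : ∀ j : Fin b, ∃ i : Fin a, j ∈ dom f → f i = j := by
    intro j
    by_cases hj : j ∈ dom f
    · unfold dom eqs at hj
      rw [mem_filter] at hj
      obtain ⟨i, hi⟩ := hj.2
      rw [mem_filter] at hi
      exact ⟨i, fun _ => hi.2⟩
    · exact ⟨⟨0, ha⟩, fun h => absurd h hj⟩
  choose d hd using h
  exact ⟨d, hd⟩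

theorem ptk_injOn {a b : ℕ} {f : Fin a → Fin b} {d : Fin b → Fin a}
    (hd : ∀ j ∈ dom f, f (d j) = j) : Set.InjOn d (dom f) := by
  intro j hj j' hj' h
  have h1 := hd j hj
  have h2 := hd j' hj'
  rw [← h1, ← h2, h]

theorem ptk_factor {a b : ℕ} (f : Fin a → Fin b) (d : Fin b → Fin a)
    (hd : ∀ j ∈ dom f, f (d j) = j) (x : Fin a → Fin b → ℝ) :
    ∏ j, col f (fun i => x i j) j =
      (∏ j ∈ dom f, (x (d j) j * ∏ j' ∈ (dom f).filter (fun j' => j < j'), (1 + x (d j) j'))) *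
      (∏ i ∈ univ \ (dom f).image d,
        (x i (f i) * ∏ j' ∈ (dom f).filter (fun j' => f i < j'), (1 + x i j'))) *
      ∏ j ∈ univ \ dom f, (∏ i ∈ lts f j, (1 + x i j) - 1) := by
  have h1 : ∏ j, col f (fun i => x i j) j =
      (∏ j ∈ univ \ dom f, col f (fun i => x i j) j) * ∏ j ∈ dom f, col f (fun i => x i j) j :=
    (prod_sdiff (subset_univ (dom f))).symm
  have h2 : ∏ j ∈ univ \ dom f, col f (fun i => x i j) j =
      ∏ j ∈ univ \ dom f, (∏ i ∈ lts f j, (1 + x i j) - 1) := by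
    refine prod_congr rfl fun j hj => ?_
    rw [mem_sdiff] at hj
    have h3 : ¬ (eqs f j).Nonempty := fun h4 => hj.2 (by unfold dom; exact mem_filter.2 ⟨mem_univ _, h4⟩)
    unfold col
    rw [if_neg h3]
  have h3 : ∏ j ∈ dom f, col f (fun i => x i j) j =
      (∏ j ∈ dom f, ∏ i ∈ eqs f j, x i j) * ∏ j ∈ dom f, ∏ i ∈ lts f j, (1 + x i j) := by
    rw [← prod_mul_distrib]
    refine prod_congr rfl fun j hj => ?_
    have h4 : (eqs f j).Nonempty := by
      unfold dom at hj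
      exact (mem_filter.1 hj).2
    unfold col
    rw [if_pos h4]
  have h4 : ∏ j ∈ dom f, ∏ i ∈ eqs f j, x i j = ∏ i, x i (f i) := by
    have h5 := prod_fiberwise_of_maps_to (s := (univ : Finset (Fin a))) (t := dom f)
      (g := f) (fun i _ => ptk_dom f i) (fun i => x i (f i))
    rw [← h5]
    refine prod_congr rfl fun j _ => ?_
    unfold eqs
    refine prod_congr rfl fun i hi => ?_
    rw [(mem_filter.1 hi).2]
  have h5 : ∏ j ∈ dom f, ∏ i ∈ lts f j, (1 + x i j) =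
      ∏ i, ∏ j' ∈ (dom f).filter (fun j' => f i < j'), (1 + x i j') := by
    refine prod_comm' fun j i => ?_
    unfold lts
    rw [mem_filter, mem_filter]
    constructor
    · rintro ⟨h6, -, h7⟩
      exact ⟨⟨h6, h7⟩, mem_univ _⟩
    · rintro ⟨⟨h6, h7⟩, -⟩
      exact ⟨h6, mem_univ _, h7⟩
  have h6 : ∏ j ∈ dom f, col f (fun i => x i j) j =
      (∏ i ∈ univ \ (dom f).image d,
        (x i (f i) * ∏ j' ∈ (dom f).filter (fun j' => f i < j'), (1 + x i j'))) *
      ∏ i ∈ (dom f).image d,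
        (x i (f i) * ∏ j' ∈ (dom f).filter (fun j' => f i < j'), (1 + x i j')) := by
    rw [h3, h4, h5, ← prod_mul_distrib]
    exact (prod_sdiff (subset_univ _)).symm
  have h7 : ∏ i ∈ (dom f).image d,
        (x i (f i) * ∏ j' ∈ (dom f).filter (fun j' => f i < j'), (1 + x i j')) =
      ∏ j ∈ dom f, (x (d j) j * ∏ j' ∈ (dom f).filter (fun j' => j < j'), (1 + x (d j) j')) := by
    rw [prod_image (ptk_injOn hd)]
    refine prod_congr rfl fun j hj => ?_
    rw [hd j hj]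
  rw [h1, h2, h6, h7]
  ring

end Pool.Agent.Lib.MP_0430e4_lc.Lsn
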