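import Pool.Agent.Lib.MP_0430e4_lc.Lsn.Nra
import Pool.Agent.Lib.MP_0430e4_lc.Lsn.Nrp
import Pool.Agent.Lib.MP_0430e4_lc.Lsn.Nrv
import Pool.Agent.Lib.MP_0430e4_lc.Lsn.Ptk

/-!
# Nrc: the norm of a pattern

PROOF. `D = dom f`, `d` from `ptk_des`. `nrc_raw`: rewrite the kernel with `ptk_factor` (entries `x i j = Φ (α i) (β j) - 1`).
`pair_chain h d D` bounds the first factor. Then `bd_left_set` with `I = univ \ D.image d`,
`W i x β = (Φ x (β (f i)) - 1) * ∏ j' ∈ D.filter (f i < ·), (1 + (Φ x (β j') - 1))`, `s = σ (1 + θ) ^ b` (`nrv_left`); the first factor does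
not depend on `α i`, `i ∉ D.image d`. Then `bd_right_set` with `J = univ \ D`, `W j y α = ∏ i ∈ lts f j, (1 + (Φ (α i) y - 1)) - 1`,
`s = a σ (1 + θ) ^ a` (`nrv_right`); the first two factors do not depend on `β j`, `j ∉ D` (`ptk_dom`). The cards:
`(univ \ D.image d).card = a - D.card` (`ptk_injOn`, `card_image_of_injOn`), `(univ \ D).card = b - D.card`, `D.card ≤ a`, `D.card ≤ b`, `1 ≤ D.card`.
`nrc_num`: write `D = m + 1`, `a = D + a'`, `b = D + b'`; `ρ ^ D ≤ ρ * (σ ^ 2) ^ m`; all is the square of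
`(A σ T1) ^ b' * (σ T2) ^ a' * (ρ T2) ^ D ≤ A ^ b * (1 + θ) ^ (2 a b) * (ρ σ ^ (a + b - 2))`, `A = a`, `T1 = (1 + θ) ^ a`, `T2 = (1 + θ) ^ b`.
-/

set_option autoImplicit false

namespace Pool.Agent.Lib.MP_0430e4_lc.Lsn

open Finset

variable {V : Type*} [Fintype V] [DecidableEq V] {Φ : V → V → ℝ} {θ σ ρ : ℝ}

theorem nrc_num {θ σ ρ X : ℝ} (hθ : 0 ≤ θ) (hσ : 0 ≤ σ) (hρ : 0 ≤ ρ) (hρσ : ρ ≤ σ ^ 2)
    (hX : 0 ≤ X) {a b D : ℕ} (hD : 1 ≤ D) (hDa : D ≤ a) (hDb : D ≤ b) :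
    ((a * σ * (1 + θ) ^ a) ^ 2) ^ (b - D) * (((σ * (1 + θ) ^ b) ^ 2) ^ (a - D) *
      (((ρ * (1 + θ) ^ b) ^ 2) ^ D * X)) ≤
    ((a : ℝ) ^ b * (1 + θ) ^ (2 * (a * b)) * (ρ * σ ^ (a + b - 2))) ^ 2 * X := by
  obtain ⟨m, rfl⟩ : ∃ m, D = m + 1 := ⟨D - 1, by omega⟩
  obtain ⟨a', rfl⟩ := Nat.exists_eq_add_of_le hDa
  obtain ⟨b', rfl⟩ := Nat.exists_eq_add_of_le hDb
  obtain ⟨A, hA⟩ : ∃ A : ℝ, A = ((m + 1 + a' : ℕ) : ℝ) := ⟨_, rfl⟩
  have hA1 : 1 ≤ A := by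
    rw [hA]
    exact_mod_cast (by omega : 1 ≤ m + 1 + a')
  obtain ⟨t, ht⟩ : ∃ t : ℝ, t = 1 + θ := ⟨_, rfl⟩
  have ht1 : 1 ≤ t := by
    rw [ht]
    linarith
  rw [← hA, ← ht, Nat.add_sub_cancel_left, Nat.add_sub_cancel_left]
  have e0 : m + 1 + a' + (m + 1 + b') - 2 = 2 * m + a' + b' := by omega
  rw [e0]
  have e1 : ((A * σ * t ^ (m + 1 + a')) ^ 2) ^ b' * (((σ * t ^ (m + 1 + b')) ^ 2) ^ a' *
      (((ρ * t ^ (m + 1 + b')) ^ 2) ^ (m + 1) * X)) =
      ((A * σ * t ^ (m + 1 + a')) ^ b' * (σ * t ^ (m + 1 + b')) ^ a' * (ρ * t ^ (m + 1 + b')) ^ (m + 1)) ^ 2 * X := by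
    ring
  rw [e1]
  refine mul_le_mul_of_nonneg_right ?_ hX
  refine pow_le_pow_left₀ (by positivity) ?_ 2
  have e2 : (A * σ * t ^ (m + 1 + a')) ^ b' * (σ * t ^ (m + 1 + b')) ^ a' * (ρ * t ^ (m + 1 + b')) ^ (m + 1) =
      A ^ b' * t ^ ((m + 1 + a') * b' + (m + 1 + b') * (m + 1 + a')) * (ρ * (σ ^ (a' + b') * ρ ^ m)) := by
    rw [mul_pow, mul_pow, mul_pow, mul_pow, ← pow_mul, ← pow_mul, ← pow_mul, pow_succ ρ m, pow_add t, pow_add σ]
    have e3 : (m + 1 + b') * (m + 1 + a') = (m + 1 + b') * a' + (m + 1 + b') * (m + 1) := by ring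
    rw [e3, pow_add t ((m + 1 + b') * a')]
    ring
  rw [e2]
  have h1 : A ^ b' ≤ A ^ (m + 1 + b') := pow_le_pow_right₀ hA1 (by omega)
  have h2 : t ^ ((m + 1 + a') * b' + (m + 1 + b') * (m + 1 + a')) ≤ t ^ (2 * ((m + 1 + a') * (m + 1 + b'))) := by
    refine pow_le_pow_right₀ ht1 ?_
    have h3 : (m + 1 + a') * b' ≤ (m + 1 + a') * (m + 1 + b') := Nat.mul_le_mul_left _ (by omega)
    have h4 : (m + 1 + b') * (m + 1 + a') = (m + 1 + a') * (m + 1 + b') := Nat.mul_comm _ _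
    omega
  have h3 : σ ^ (a' + b') * ρ ^ m ≤ σ ^ (2 * m + a' + b') := by
    have h4 : ρ ^ m ≤ (σ ^ 2) ^ m := pow_le_pow_left₀ hρ hρσ m
    calc σ ^ (a' + b') * ρ ^ m ≤ σ ^ (a' + b') * (σ ^ 2) ^ m := by gcongr
      _ = σ ^ (2 * m + a' + b') := by
          rw [← pow_mul, ← pow_add]
          congr 1
          omega
  gcongr

theorem pat_bound [Nonempty V] (h : Las.Ker Φ θ σ ρ) {a b : ℕ} (ha : 1 ≤ a)
    (f : Fin a → Fin b) :
    BD (((a : ℝ) ^ b * (1 + θ) ^ (2 * (a * b)) * (ρ * σ ^ (a + b - 2))) ^ 2 *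
        (Fintype.card V : ℝ) ^ (a + b))
      (fun (α : Fin a → V) (β : Fin b → V) => ∏ j, col f (fun i => Φ (α i) (β j) - 1) j) := by
  classical
  obtain ⟨d, hd⟩ := ptk_des ha f
  have hθ := h.θ0
  have hσ := h.σ0
  have hρ := h.ρ0
  have hinj := ptk_injOn hd
  have hc1 := pair_chain h d (dom f) hinj
  have hc0 : 0 ≤ ((ρ * (1 + θ) ^ b) ^ 2) ^ (dom f).card * (Fintype.card V : ℝ) ^ (a + b) := by positivity
  have hc2 := bd_left_set (univ \ (dom f).image d)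
    (K := fun (α : Fin a → V) (β : Fin b → V) => ∏ j ∈ dom f, ((Φ (α (d j)) (β j) - 1) *
        ∏ j' ∈ (dom f).filter (fun j' => j < j'), (1 + (Φ (α (d j)) (β j') - 1))))
    (W := fun i x β => (Φ x (β (f i)) - 1) * ∏ j' ∈ (dom f).filter (fun j' => f i < j'), (1 + (Φ x (β j') - 1)))
    (s := σ * (1 + θ) ^ b) hc0
    (fun i hi α β x => by
      refine prod_congr rfl fun j hj => ?_
      have hne : d j ≠ i := by
        rintro rfl
        exact (mem_sdiff.1 hi).2 (mem_image_of_mem d hj)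
      rw [Function.update_of_ne hne])
    (fun i _ β => nrv_left h _ (β (f i)) β) hc1
  have hc00 : 0 ≤ ((σ * (1 + θ) ^ b) ^ 2) ^ (univ \ (dom f).image d).card *
      (((ρ * (1 + θ) ^ b) ^ 2) ^ (dom f).card * (Fintype.card V : ℝ) ^ (a + b)) := by positivity
  have hc3 := bd_right_set (univ \ dom f)
    (K := fun (α : Fin a → V) (β : Fin b → V) => (∏ j ∈ dom f, ((Φ (α (d j)) (β j) - 1) *
        ∏ j' ∈ (dom f).filter (fun j' => j < j'), (1 + (Φ (α (d j)) (β j') - 1)))) *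
      ∏ i ∈ univ \ (dom f).image d, ((Φ (α i) (β (f i)) - 1) *
        ∏ j' ∈ (dom f).filter (fun j' => f i < j'), (1 + (Φ (α i) (β j') - 1))))
    (W := fun j y α => ∏ i ∈ lts f j, (1 + (Φ (α i) y - 1)) - 1)
    (s := a * σ * (1 + θ) ^ a) hc00
    (fun j hj α β y => by
      have hjd : j ∉ dom f := (mem_sdiff.1 hj).2
      have hne : ∀ j' ∈ dom f, j' ≠ j := fun j' hj' he => hjd (he ▸ hj')
      congr 1
      · refine prod_congr rfl fun j' hj' => ?_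
        rw [Function.update_of_ne (hne j' hj')]
        congr 1
        refine prod_congr rfl fun j'' hj'' => ?_
        rw [Function.update_of_ne (hne j'' (mem_filter.1 hj'').1)]
      · refine prod_congr rfl fun i _ => ?_
        rw [Function.update_of_ne (hne (f i) (ptk_dom f i))]
        congr 1
        refine prod_congr rfl fun j'' hj'' => ?_
        rw [Function.update_of_ne (hne j'' (mem_filter.1 hj'').1)])
    (fun j _ α => nrv_right h (lts f j) α) hc2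
  have hDa : (dom f).card ≤ a := by
    rw [← card_image_of_injOn hinj]
    have := card_le_univ ((dom f).image d)
    rwa [Fintype.card_fin] at this
  have hDb : (dom f).card ≤ b := by
    have := card_le_univ (dom f)
    rwa [Fintype.card_fin] at this
  have hD1 : 1 ≤ (dom f).card := card_pos.2 ⟨f ⟨0, by omega⟩, ptk_dom f _⟩
  have hca : (univ \ (dom f).image d).card = a - (dom f).card := by
    rw [card_sdiff_of_subset (subset_univ _), card_image_of_injOn hinj, card_univ, Fintype.card_fin]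
  have hcb : (univ \ dom f).card = b - (dom f).card := by
    rw [card_sdiff_of_subset (subset_univ _), card_univ, Fintype.card_fin]
  rw [hca, hcb] at hc3
  have hnum := nrc_num (X := (Fintype.card V : ℝ) ^ (a + b)) hθ hσ hρ h.ρσ (by positivity) hD1 hDa hDb
  intro p r
  have h1 := hc3 p r
  have hker : ∀ (α : Fin a → V) (β : Fin b → V), ∏ j, col f (fun i => Φ (α i) (β j) - 1) j =
      ((∏ j ∈ dom f, ((Φ (α (d j)) (β j) - 1) *
        ∏ j' ∈ (dom f).filter (fun j' => j < j'), (1 + (Φ (α (d j)) (β j') - 1)))) *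
      ∏ i ∈ univ \ (dom f).image d, ((Φ (α i) (β (f i)) - 1) *
        ∏ j' ∈ (dom f).filter (fun j' => f i < j'), (1 + (Φ (α i) (β j') - 1)))) *
      ∏ j ∈ univ \ dom f, (∏ i ∈ lts f j, (1 + (Φ (α i) (β j) - 1)) - 1) := by
    intro α β
    exact ptk_factor f d hd (fun i j => Φ (α i) (β j) - 1)
  simp only [hker]
  refine h1.trans ?_
  refine mul_le_mul_of_nonneg_right hnum ?_
  exact mul_nonneg (sum_nonneg fun _ _ => sq_nonneg _) (sum_nonneg fun _ _ => sq_nonneg _)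

end Pool.Agent.Lib.MP_0430e4_lc.Lsn
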