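import Pool.Agent.Lib.MP_0430e4_lc.Lsn.Ptb
import Pool.Agent.Lib.MP_0430e4_lc.Lsn.Nrc

/-!
# Setc: from tuples to sets

PROOF. As `Las.set_bound` (file Las/SETB.lean): `setb_enum`, `setb_bij`; then `sum_product_right` (or `sum_comm`) puts the sum over
`γ ∈ full a b` inside: for the pair `(A, B)` it is `∏ ... = ∑ f, ∏ j, col f (fun i => Φ (e A i) (e' B j) - 1) j` by `ptb_sum`
(times `F A * G B`). Exchange: `∑ f, T f` with `T f = ∑ (A, B), (∏ j, col f ..) * F A * G B = ∑ α, ∑ β, (∏ j, col f ..) * setbP e F α * setbP e' G β`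
(`setbP_sum` twice as in `Las.set_bound`), `T f ^ 2 ≤ X` by `pat_bound` and `setbP_sq`; `sq_sum_le_card_mul_sum_sq` over `f`, and the
number of `f : Fin a → Fin b` is `b ^ a` (`Fintype.card_fun`).
-/

set_option autoImplicit false

namespace Pool.Agent.Lib.MP_0430e4_lc.Lsn

open Finset

variable {V : Type*} [Fintype V] [DecidableEq V] {Φ : V → V → ℝ} {θ σ ρ : ℝ}

theorem set_bound [Nonempty V] (h : Las.Ker Φ θ σ ρ) {a b : ℕ} (ha : 1 ≤ a) (hb : 1 ≤ b)
    (F G : Finset V → ℝ) :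
    (∑ g ∈ univ.filter (fun g : Finset (V × V) => (Las.lft g).card = a ∧ (Las.rgt g).card = b),
      Las.edg Φ g * F (Las.lft g) * G (Las.rgt g)) ^ 2 ≤
    ((b : ℝ) ^ a * ((a : ℝ) ^ b * (1 + θ) ^ (2 * (a * b)) * (ρ * σ ^ (a + b - 2)))) ^ 2 *
      (Fintype.card V : ℝ) ^ (a + b) *
      ((∑ A ∈ powersetCard a univ, F A ^ 2) * ∑ B ∈ powersetCard b univ, G B ^ 2) := by
  classical
  obtain ⟨e, he⟩ := Las.setb_enum (V := V) a
  obtain ⟨e', he'⟩ := Las.setb_enum (V := V) b
  rw [Las.setb_bij he he', sum_product_right]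
  have h1 : ∀ y ∈ powersetCard a (univ : Finset V) ×ˢ powersetCard b (univ : Finset V),
      ∑ γ ∈ Las.full a b, (∏ c ∈ γ, (Φ (e y.1 c.1) (e' y.2 c.2) - 1)) * F y.1 * G y.2 =
      ∑ f : Fin a → Fin b,
        (∏ j, col f (fun i => Φ (e y.1 i) (e' y.2 j) - 1) j) * F y.1 * G y.2 := by
    intro y _
    rw [← sum_mul, ← sum_mul, ptb_sum (fun i j => Φ (e y.1 i) (e' y.2 j) - 1), sum_mul, sum_mul]
  rw [sum_congr rfl h1, sum_comm]
  set X : ℝ := ((a : ℝ) ^ b * (1 + θ) ^ (2 * (a * b)) * (ρ * σ ^ (a + b - 2))) ^ 2 *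
      (Fintype.card V : ℝ) ^ (a + b) *
      ((∑ A ∈ powersetCard a univ, F A ^ 2) * ∑ B ∈ powersetCard b univ, G B ^ 2) with hX
  have hterm : ∀ f ∈ (univ : Finset (Fin a → Fin b)),
      (∑ y ∈ powersetCard a (univ : Finset V) ×ˢ powersetCard b (univ : Finset V),
        (∏ j, col f (fun i => Φ (e y.1 i) (e' y.2 j) - 1) j) * F y.1 * G y.2) ^ 2 ≤ X := by
    intro f _
    have h4 := pat_bound h ha f (Las.setbP e F) (Las.setbP e' G)
    rw [Las.setbP_sq he, Las.setbP_sq he'] at h4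
    have h5 : ∑ y ∈ powersetCard a (univ : Finset V) ×ˢ powersetCard b (univ : Finset V),
        (∏ j, col f (fun i => Φ (e y.1 i) (e' y.2 j) - 1) j) * F y.1 * G y.2
        = ∑ α, ∑ β, (∏ j, col f (fun i => Φ (α i) (β j) - 1) j) * Las.setbP e F α *
          Las.setbP e' G β := by
      rw [sum_product]
      have h6 : ∀ α : Fin a → V, ∑ β : Fin b → V,
          (∏ j, col f (fun i => Φ (α i) (β j) - 1) j) * Las.setbP e F α * Las.setbP e' G β =
          (∑ B ∈ powersetCard b (univ : Finset V),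
            (∏ j, col f (fun i => Φ (α i) (e' B j) - 1) j) * G B) * Las.setbP e F α := by
        intro α
        rw [Las.setbP_sum e' G (fun β => ∏ j, col f (fun i => Φ (α i) (β j) - 1) j) |>.symm,
          sum_mul]
        exact sum_congr rfl fun β _ => by ring
      rw [sum_congr rfl fun α _ => h6 α]
      rw [Las.setbP_sum e F (fun α => ∑ B ∈ powersetCard b (univ : Finset V),
            (∏ j, col f (fun i => Φ (α i) (e' B j) - 1) j) * G B)]
      refine sum_congr rfl fun A _ => ?_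
      rw [sum_mul]
      exact sum_congr rfl fun B _ => by ring
    rw [h5]
    exact h4
  have hcard : ((univ : Finset (Fin a → Fin b)).card : ℝ) = (b : ℝ) ^ a := by
    rw [card_univ, Fintype.card_fun, Fintype.card_fin, Fintype.card_fin]
    push_cast
    rfl
  refine (sq_sum_le_card_mul_sum_sq).trans ?_
  calc ((univ : Finset (Fin a → Fin b)).card : ℝ) * ∑ f : Fin a → Fin b,
        (∑ y ∈ powersetCard a (univ : Finset V) ×ˢ powersetCard b (univ : Finset V),
          (∏ j, col f (fun i => Φ (e y.1 i) (e' y.2 j) - 1) j) * F y.1 * G y.2) ^ 2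
      ≤ ((univ : Finset (Fin a → Fin b)).card : ℝ) * ∑ _f : Fin a → Fin b, X :=
        mul_le_mul_of_nonneg_left (sum_le_sum hterm) (by positivity)
    _ = ((b : ℝ) ^ a) ^ 2 * X := by
        rw [sum_const, nsmul_eq_mul, hcard]
        ring
    _ = _ := by
        rw [hX]
        ring

end Pool.Agent.Lib.MP_0430e4_lc.Lsn
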