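import Pool.Agent.Lib.MP_0430e4_lc.Las.PSD
import Pool.Agent.Lib.MP_0430e4_lc.Lsn.Setc

/-!
# Psi: the bound at one conditioning set

PROOF. Copy of `Las.inner_bound` (file Las/PSD.lean) with `2 ^ (t ^ 2)` replaced by `L = t ^ (2 t) * (1 + θ) ^ (2 t ^ 2)`, and `Las.set_bound`
replaced by `Lsn.set_bound`. Needed: `psi_count`: for `1 ≤ a, b ≤ t`: `b ^ a * (a ^ b * (1 + θ) ^ (2 a b)) ≤ L` (`b ^ a ≤ t ^ a ≤ t ^ t` since `1 ≤ t`).
-/

set_option autoImplicit false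

namespace Pool.Agent.Lib.MP_0430e4_lc.Lsn

open Finset

variable {V : Type*} [Fintype V] [DecidableEq V] {Φ : V → V → ℝ} {θ σ ρ : ℝ}

theorem psi_count {θ : ℝ} (hθ : 0 ≤ θ) {a b t : ℕ} (ha : 1 ≤ a) (hat : a ≤ t) (hb : 1 ≤ b)
    (hbt : b ≤ t) : (b : ℝ) ^ a * ((a : ℝ) ^ b * (1 + θ) ^ (2 * (a * b))) ≤
      (t : ℝ) ^ (2 * t) * (1 + θ) ^ (2 * t ^ 2) := by
  have ht : (1 : ℝ) ≤ t := by exact_mod_cast ha.trans hat
  have h1 : (b : ℝ) ^ a ≤ (t : ℝ) ^ t :=
    (pow_le_pow_left₀ (by positivity) (by exact_mod_cast hbt) a).trans (pow_le_pow_right₀ ht hat)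
  have h2 : (a : ℝ) ^ b ≤ (t : ℝ) ^ t :=
    (pow_le_pow_left₀ (by positivity) (by exact_mod_cast hat) b).trans (pow_le_pow_right₀ ht hbt)
  have h3 : (1 + θ) ^ (2 * (a * b)) ≤ (1 + θ) ^ (2 * t ^ 2) := by
    refine pow_le_pow_right₀ (by linarith) ?_
    rw [sq]
    exact Nat.mul_le_mul_left 2 (Nat.mul_le_mul hat hbt)
  have h4 : (a : ℝ) ^ b * (1 + θ) ^ (2 * (a * b)) ≤ (t : ℝ) ^ t * (1 + θ) ^ (2 * t ^ 2) :=
    mul_le_mul h2 h3 (by positivity) (by positivity)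
  calc (b : ℝ) ^ a * ((a : ℝ) ^ b * (1 + θ) ^ (2 * (a * b)))
      ≤ (t : ℝ) ^ t * ((t : ℝ) ^ t * (1 + θ) ^ (2 * t ^ 2)) :=
        mul_le_mul h1 h4 (by positivity) (by positivity)
    _ = (t : ℝ) ^ (2 * t) * (1 + θ) ^ (2 * t ^ 2) := by
        rw [two_mul, pow_add]
        ring

theorem inner_bound [Nonempty V] (h : Las.Ker Φ θ σ ρ) {t : ℕ} {M R : ℝ} (hM : 0 < M)
    (hR : ∀ m ≤ 2 * t - 2, M * ρ * (σ * Real.sqrt M) ^ m ≤ R) (hR0 : 0 ≤ R)
    {u : ℝ} (hu : u = M / Fintype.card V) (I : Finset V) (S : Finset V → ℝ)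
    (hS : ∀ J, t < J.card → S J = 0) :
    S I ^ 2 - t * ((t : ℝ) ^ (2 * t) * (1 + θ) ^ (2 * t ^ 2)) * R *
        ∑ A ∈ univ.filter (fun A : Finset V => Disjoint I A), u ^ A.card * S (I ∪ A) ^ 2 ≤
      ∑ g ∈ univ.filter (fun g : Finset (V × V) => Disjoint I (Las.lft g) ∧ Disjoint I (Las.rgt g)),
        Las.edg Φ g * (u ^ (Las.lft g).card * S (I ∪ Las.lft g)) * (u ^ (Las.rgt g).card * S (I ∪ Las.rgt g)) := by
  classical
  have hN : (0 : ℝ) < Fintype.card V := by exact_mod_cast Fintype.card_pos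
  have hu0 : 0 < u := by
    rw [hu]
    positivity
  have hNu : (Fintype.card V : ℝ) * u = M := by
    rw [hu]
    field_simp
  set P : Finset V → ℝ := fun A => if Disjoint I A then u ^ A.card * S (I ∪ A) else 0 with hPd
  have hP : ∀ A, t < A.card → P A = 0 := by
    intro A hA
    rw [hPd]
    by_cases hd : Disjoint I A
    · simp only [if_pos hd]
      rw [hS _ (lt_of_lt_of_le hA (card_le_card subset_union_right)), mul_zero]
    · simp only [if_neg hd]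
  have e1 : ∑ g ∈ univ.filter (fun g : Finset (V × V) => Disjoint I (Las.lft g) ∧ Disjoint I (Las.rgt g)),
      Las.edg Φ g * (u ^ (Las.lft g).card * S (I ∪ Las.lft g)) * (u ^ (Las.rgt g).card * S (I ∪ Las.rgt g)) =
      ∑ g : Finset (V × V), Las.edg Φ g * P (Las.lft g) * P (Las.rgt g) := by
    rw [sum_filter]
    refine sum_congr rfl fun g _ => ?_
    by_cases h1 : Disjoint I (Las.lft g)
    · by_cases h2 : Disjoint I (Las.rgt g)
      · rw [if_pos ⟨h1, h2⟩]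
        simp only [hPd, if_pos h1, if_pos h2]
      · rw [if_neg (fun hh => h2 hh.2)]
        simp only [hPd, if_neg h2, mul_zero]
    · rw [if_neg (fun hh => h1 hh.1)]
      simp only [hPd, if_neg h1, mul_zero, zero_mul]
  rw [e1, Las.sum_graphs t P hP]
  set Y : ℕ → ℝ := fun a => ∑ A ∈ univ.filter (fun A : Finset V => Disjoint I A ∧ A.card = a),
    u ^ A.card * S (I ∪ A) ^ 2 with hY
  have hY0 : ∀ a, 0 ≤ Y a := by
    intro a
    rw [hY]
    exact sum_nonneg fun A _ => by positivity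
  have hX : ∀ a, ∑ A ∈ powersetCard a univ, P A ^ 2 = u ^ a * Y a := by
    intro a
    have e2 : ∑ A ∈ powersetCard a univ, P A ^ 2 =
        ∑ A ∈ (powersetCard a univ).filter (fun A : Finset V => Disjoint I A),
          (u ^ A.card * S (I ∪ A)) ^ 2 := by
      rw [sum_filter]
      refine sum_congr rfl fun A _ => ?_
      by_cases hd : Disjoint I A
      · simp only [hPd, if_pos hd]
      · simp only [hPd, if_neg hd]
        ring
    rw [e2, hY, mul_sum]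
    refine sum_congr ?_ fun A hA => ?_
    · ext A
      rw [mem_filter, mem_filter, mem_powersetCard]
      constructor
      · rintro ⟨⟨_, h1⟩, h2⟩
        exact ⟨mem_univ _, h2, h1⟩
      · rintro ⟨_, h1, h2⟩
        exact ⟨⟨subset_univ _, h2⟩, h1⟩
    · rw [mem_filter] at hA
      rw [hA.2.2]
      ring
  have hT : ∀ a ∈ Icc 1 t, ∀ b ∈ Icc 1 t, -(((t : ℝ) ^ (2 * t) * (1 + θ) ^ (2 * t ^ 2)) * R * ((Y a + Y b) / 2)) ≤
      ∑ g ∈ univ.filter (fun g : Finset (V × V) => (Las.lft g).card = a ∧ (Las.rgt g).card = b),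
          Las.edg Φ g * P (Las.lft g) * P (Las.rgt g) := by
    intro a ha b hb
    rw [mem_Icc] at ha hb
    refine Las.abs_le_of_sq_le_mul (by have hθ := h.θ0; positivity) (hY0 a) (hY0 b) ?_
    refine (Lsn.set_bound h ha.1 hb.1 P P).trans ?_
    rw [hX, hX]
    set m := a + b - 2 with hm
    have hab : a + b = m + 2 := by omega
    have h1 : (M * ρ * (σ * Real.sqrt M) ^ m) ^ 2 = (ρ * σ ^ m) ^ 2 * M ^ (m + 2) := by
      have h2 : Real.sqrt M ^ 2 = M := Real.sq_sqrt hM.le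
      calc (M * ρ * (σ * Real.sqrt M) ^ m) ^ 2 = (ρ * σ ^ m) ^ 2 * (M ^ 2 * (Real.sqrt M ^ 2) ^ m) := by
            ring
        _ = _ := by
            rw [h2]
            ring
    have h3 : (M * ρ * (σ * Real.sqrt M) ^ m) ^ 2 ≤ R ^ 2 := by
      have h4 : 0 ≤ M * ρ * (σ * Real.sqrt M) ^ m := by
        have := h.ρ0
        have := h.σ0
        positivity
      exact pow_le_pow_left₀ h4 (hR m (by omega)) 2
    have hθ := h.θ0
    have h5 : ((b : ℝ) ^ a * ((a : ℝ) ^ b * (1 + θ) ^ (2 * (a * b)))) ^ 2 ≤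
        ((t : ℝ) ^ (2 * t) * (1 + θ) ^ (2 * t ^ 2)) ^ 2 :=
      pow_le_pow_left₀ (by positivity) (psi_count hθ ha.1 ha.2 hb.1 hb.2) 2
    calc ((b : ℝ) ^ a * ((a : ℝ) ^ b * (1 + θ) ^ (2 * (a * b)) * (ρ * σ ^ m))) ^ 2 *
          (Fintype.card V : ℝ) ^ (a + b) * (u ^ a * Y a * (u ^ b * Y b))
        = ((b : ℝ) ^ a * ((a : ℝ) ^ b * (1 + θ) ^ (2 * (a * b)))) ^ 2 *
          ((ρ * σ ^ m) ^ 2 * ((Fintype.card V : ℝ) * u) ^ (a + b)) * (Y a * Y b) := by
          rw [mul_pow ((Fintype.card V : ℝ)) u]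
          ring
      _ = ((b : ℝ) ^ a * ((a : ℝ) ^ b * (1 + θ) ^ (2 * (a * b)))) ^ 2 *
          (M * ρ * (σ * Real.sqrt M) ^ m) ^ 2 * (Y a * Y b) := by
          rw [hNu, hab, h1]
      _ ≤ ((t : ℝ) ^ (2 * t) * (1 + θ) ^ (2 * t ^ 2)) ^ 2 * R ^ 2 * (Y a * Y b) := by
          refine mul_le_mul_of_nonneg_right ?_ (mul_nonneg (hY0 a) (hY0 b))
          exact mul_le_mul h5 h3 (by positivity) (by positivity)
      _ = (((t : ℝ) ^ (2 * t) * (1 + θ) ^ (2 * t ^ 2)) * R) ^ 2 * (Y a * Y b) := by ring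
  have hsum : -(t * ((t : ℝ) ^ (2 * t) * (1 + θ) ^ (2 * t ^ 2)) * R * ∑ a ∈ Icc 1 t, Y a) ≤ ∑ a ∈ Icc 1 t, ∑ b ∈ Icc 1 t,
        ∑ g ∈ univ.filter (fun g : Finset (V × V) => (Las.lft g).card = a ∧ (Las.rgt g).card = b),
          Las.edg Φ g * P (Las.lft g) * P (Las.rgt g) := by
    refine le_trans (le_of_eq ?_) (sum_le_sum fun a ha => sum_le_sum fun b hb => hT a ha b hb)
    have hcard : ((Icc 1 t).card : ℝ) = t := by
      rw [Nat.card_Icc]
      simp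
    simp only [sum_neg_distrib, ← mul_sum, ← sum_div, sum_add_distrib, sum_const, nsmul_eq_mul,
      hcard]
    ring
  have hle : ∑ a ∈ Icc 1 t, Y a ≤
      ∑ A ∈ univ.filter (fun A : Finset V => Disjoint I A), u ^ A.card * S (I ∪ A) ^ 2 := by
    have e3 : ∑ a ∈ Icc 1 t, Y a = ∑ A ∈ univ.filter (fun A : Finset V => Disjoint I A ∧
        A.card ∈ Icc 1 t), u ^ A.card * S (I ∪ A) ^ 2 := by
      rw [← sum_fiberwise_of_maps_to (s := univ.filter (fun A : Finset V => Disjoint I A ∧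
        A.card ∈ Icc 1 t)) (t := Icc 1 t) (g := fun A => A.card)]
      · refine sum_congr rfl fun a ha => ?_
        rw [hY]
        refine sum_congr ?_ fun _ _ => rfl
        ext A
        rw [mem_filter, mem_filter, mem_filter]
        constructor
        · rintro ⟨_, h1, h2⟩
          exact ⟨⟨mem_univ _, h1, h2 ▸ ha⟩, h2⟩
        · rintro ⟨⟨_, h1, _⟩, h2⟩
          exact ⟨mem_univ _, h1, h2⟩
      · intro A hA
        rw [mem_filter] at hA
        exact hA.2.2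
    rw [e3]
    refine sum_le_sum_of_subset_of_nonneg ?_ fun A _ _ => by positivity
    intro A hA
    rw [mem_filter] at hA ⊢
    exact ⟨mem_univ _, hA.2.1⟩
  have hP0 : P ∅ = S I := by
    simp only [hPd, disjoint_empty_right, if_true, card_empty, pow_zero, one_mul, union_empty]
  rw [hP0]
  have h6 : t * ((t : ℝ) ^ (2 * t) * (1 + θ) ^ (2 * t ^ 2)) * R * ∑ a ∈ Icc 1 t, Y a ≤ t * ((t : ℝ) ^ (2 * t) * (1 + θ) ^ (2 * t ^ 2)) * R *
      ∑ A ∈ univ.filter (fun A : Finset V => Disjoint I A), u ^ A.card * S (I ∪ A) ^ 2 :=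
    mul_le_mul_of_nonneg_left hle (by have hθ := h.θ0; positivity)
  linarith

end Pool.Agent.Lib.MP_0430e4_lc.Lsn
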