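import Pool.Agent.Lib.MP_0430e4_lc.Lsn.Defs

/-!
# Pta: the sum over one column

PROOF. The sets `T` with `eqs f j ⊆ T ⊆ eqs f j ∪ lts f j` are `eqs f j ∪ U` with `U ⊆ lts f j` (the two sets are disjoint):
`Finset.prod_one_add` / `Finset.prod_add` with `1 + x i` gives `∑ U ∈ (lts f j).powerset, ∏ i ∈ U, x i = ∏ i ∈ lts f j, (1 + x i)`. If
`eqs f j` is nonempty then all `T` are nonempty, otherwise exactly the `T = ∅` (with product `1`) is left out.
-/

set_option autoImplicit false

namespace Pool.Agent.Lib.MP_0430e4_lc.Lsn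

open Finset

private theorem pta_all {a b : ℕ} (f : Fin a → Fin b) (x : Fin a → ℝ) (j : Fin b) :
    ∑ T ∈ univ.filter (fun T : Finset (Fin a) => eqs f j ⊆ T ∧ T ⊆ eqs f j ∪ lts f j),
      ∏ i ∈ T, x i = (∏ i ∈ eqs f j, x i) * ∏ i ∈ lts f j, (1 + x i) := by
  have hd : Disjoint (eqs f j) (lts f j) := by
    rw [Finset.disjoint_left]
    intro i hi hi'
    unfold eqs at hi
    unfold lts at hi'
    rw [mem_filter] at hi hi'
    exact absurd hi.2 (ne_of_lt hi'.2)
  rw [Finset.prod_one_add, Finset.mul_sum]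
  refine Finset.sum_nbij' (fun T => T \ eqs f j) (fun U => eqs f j ∪ U) ?_ ?_ ?_ ?_ ?_
  · intro T hT
    rw [mem_filter] at hT
    rw [mem_powerset]
    intro i hi
    rw [mem_sdiff] at hi
    rcases mem_union.1 (hT.2.2 hi.1) with h | h
    · exact absurd h hi.2
    · exact h
  · intro U hU
    rw [mem_powerset] at hU
    rw [mem_filter]
    exact ⟨mem_univ _, subset_union_left, union_subset_union_right hU⟩
  · intro T hT
    rw [mem_filter] at hT
    exact union_sdiff_of_subset hT.2.1
  · intro U hU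
    rw [mem_powerset] at hU
    rw [union_sdiff_left]
    exact sdiff_eq_self_of_disjoint (hd.symm.mono_left hU)
  · intro T hT
    rw [mem_filter] at hT
    rw [mul_comm]
    exact (prod_sdiff hT.2.1).symm

theorem pta_col {a b : ℕ} (f : Fin a → Fin b) (x : Fin a → ℝ) (j : Fin b) :
    ∑ T ∈ univ.filter (fun T : Finset (Fin a) => T.Nonempty ∧ eqs f j ⊆ T ∧ T ⊆ eqs f j ∪ lts f j),
      ∏ i ∈ T, x i = col f x j := by
  have h := pta_all f x j
  unfold col
  split_ifs with hE
  · rw [← h]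
    refine Finset.sum_congr ?_ fun _ _ => rfl
    ext T
    simp only [mem_filter, mem_univ, true_and]
    constructor
    · exact fun h1 => h1.2
    · exact fun h1 => ⟨hE.mono h1.1, h1⟩
  · rw [not_nonempty_iff_eq_empty] at hE
    have h2 : univ.filter (fun T : Finset (Fin a) => T.Nonempty ∧ eqs f j ⊆ T ∧ T ⊆ eqs f j ∪ lts f j) =
        (univ.filter (fun T : Finset (Fin a) => eqs f j ⊆ T ∧ T ⊆ eqs f j ∪ lts f j)).erase ∅ := by
      ext T
      simp only [mem_filter, mem_univ, true_and, mem_erase, nonempty_iff_ne_empty]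
    rw [h2, eq_sub_iff_add_eq]
    have h3 : (∅ : Finset (Fin a)) ∈ univ.filter
        (fun T : Finset (Fin a) => eqs f j ⊆ T ∧ T ⊆ eqs f j ∪ lts f j) := by
      rw [mem_filter, hE]
      exact ⟨mem_univ _, subset_rfl, empty_subset _⟩
    have h4 := Finset.sum_erase_add _ (fun T : Finset (Fin a) => ∏ i ∈ T, x i) h3
    rw [prod_empty] at h4
    rw [h4, h, hE, prod_empty, one_mul]

end Pool.Agent.Lib.MP_0430e4_lc.Lsn
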