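import Pool.Agent.Lib.MP_0430e4_lc.Lsn.Pta

/-!
# Ptb: the sum over all graphs, sorted by the smallest neighbours

PROOF. `ptb_unique`: `f i` is the minimum of `{j | i ∈ G j}`: the condition for `i` says `i ∈ G (f i)` and `i ∉ G j` for `j < f i`
(`i ∈ eqs f j ↔ f i = j`, `i ∈ eqs f j ∪ lts f j ↔ f i ≤ j`). Existence: `Finset.min'`, uniqueness: antisymmetry.

`ptb_sum`: (1) reindex `γ ∈ full a b` by the columns `G j = {i | (i, j) ∈ γ}`, `G` in
`univ.filter (fun G => (∀ j, (G j).Nonempty) ∧ ∀ i, ∃ j, i ∈ G j)` (`sum_nbij'` or an `Equiv`; the product is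
`∏ j, ∏ i ∈ G j, x i j`, e.g. `Finset.prod_sigma'`/`prod_finset_product_right'`); (2) for such `G` insert `1 = ∑ f, [∀ j, eqs f j ⊆ G j ⊆ eqs f j ∪ lts f j]`
(`ptb_unique`; if the condition on `f` holds then `∀ i ∃ j, i ∈ G j` holds automatically, with `j = f i`), so the sum is
`∑ f, ∑ G ∈ Fintype.piFinset (fun j => univ.filter (T.Nonempty ∧ eqs f j ⊆ T ∧ T ⊆ eqs f j ∪ lts f j)), ∏ j, ∏ i ∈ G j, x i j`; (3) `Finset.prod_univ_sum`
(backwards) and `pta_col` with the column `fun i => x i j`.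
-/

set_option autoImplicit false

namespace Pool.Agent.Lib.MP_0430e4_lc.Lsn

open Finset

private theorem ptb_mem_eqs {a b : ℕ} (f : Fin a → Fin b) (i : Fin a) (j : Fin b) :
    i ∈ eqs f j ↔ f i = j := by
  unfold eqs
  simp

private theorem ptb_mem_lts {a b : ℕ} (f : Fin a → Fin b) (i : Fin a) (j : Fin b) :
    i ∈ lts f j ↔ f i < j := by
  unfold lts
  simp

theorem ptb_unique {a b : ℕ} (G : Fin b → Finset (Fin a)) (hG : ∀ i, ∃ j, i ∈ G j) :
    ∃! f : Fin a → Fin b, ∀ j, eqs f j ⊆ G j ∧ G j ⊆ eqs f j ∪ lts f j := by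
  classical
  have hne : ∀ i, (univ.filter (fun j => i ∈ G j)).Nonempty := by
    intro i
    obtain ⟨j, hj⟩ := hG i
    exact ⟨j, mem_filter.2 ⟨mem_univ j, hj⟩⟩
  refine ⟨fun i => (univ.filter (fun j => i ∈ G j)).min' (hne i), ?_, ?_⟩
  · intro j
    constructor
    · intro i hi
      rw [ptb_mem_eqs] at hi
      have h1 := min'_mem _ (hne i)
      rw [hi] at h1
      exact (mem_filter.1 h1).2
    · intro i hi
      rw [mem_union, ptb_mem_eqs, ptb_mem_lts]
      have h1 : (univ.filter (fun j => i ∈ G j)).min' (hne i) ≤ j :=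
        min'_le _ _ (mem_filter.2 ⟨mem_univ j, hi⟩)
      exact eq_or_lt_of_le h1
  · intro g hg
    funext i
    refine le_antisymm ?_ ?_
    · refine le_min' _ _ _ fun j hj => ?_
      have h1 := (hg j).2 (mem_filter.1 hj).2
      rw [mem_union, ptb_mem_eqs, ptb_mem_lts] at h1
      rcases h1 with h1 | h1
      · exact h1.le
      · exact h1.le
    · refine min'_le _ _ (mem_filter.2 ⟨mem_univ _, ?_⟩)
      exact (hg (g i)).1 ((ptb_mem_eqs g i (g i)).2 rfl)

theorem ptb_sum {a b : ℕ} (x : Fin a → Fin b → ℝ) :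
    ∑ γ ∈ Las.full a b, ∏ c ∈ γ, x c.1 c.2 = ∑ f : Fin a → Fin b, ∏ j, col f (fun i => x i j) j := by
  classical
  -- the columns
  have h1 : ∑ γ ∈ Las.full a b, ∏ c ∈ γ, x c.1 c.2 =
      ∑ G ∈ univ.filter (fun G : Fin b → Finset (Fin a) => (∀ j, (G j).Nonempty) ∧ ∀ i, ∃ j, i ∈ G j),
        ∏ j, ∏ i ∈ G j, x i j := by
    refine sum_nbij' (fun γ j => univ.filter fun i => (i, j) ∈ γ)
      (fun G => univ.filter fun c : Fin a × Fin b => c.1 ∈ G c.2) ?_ ?_ ?_ ?_ ?_
    · intro γ hγ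
      unfold Las.full at hγ
      rw [mem_filter] at hγ
      rw [mem_filter]
      refine ⟨mem_univ _, fun j => ?_, fun i => ?_⟩
      · have h2 : j ∈ Las.rgt γ := by
          rw [hγ.2.2]
          exact mem_univ j
        unfold Las.rgt at h2
        obtain ⟨c, hc, hcj⟩ := mem_image.1 h2
        refine ⟨c.1, mem_filter.2 ⟨mem_univ _, ?_⟩⟩
        rw [← hcj]
        exact hc
      · have h2 : i ∈ Las.lft γ := by
          rw [hγ.2.1]
          exact mem_univ i
        unfold Las.lft at h2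
        obtain ⟨c, hc, hci⟩ := mem_image.1 h2
        refine ⟨c.2, mem_filter.2 ⟨mem_univ _, ?_⟩⟩
        rw [← hci]
        exact hc
    · intro G hG
      rw [mem_filter] at hG
      unfold Las.full
      rw [mem_filter]
      refine ⟨mem_univ _, ?_, ?_⟩
      · unfold Las.lft
        refine eq_univ_of_forall fun i => ?_
        obtain ⟨j, hj⟩ := hG.2.2 i
        exact mem_image.2 ⟨(i, j), mem_filter.2 ⟨mem_univ _, hj⟩, rfl⟩
      · unfold Las.rgt
        refine eq_univ_of_forall fun j => ?_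
        obtain ⟨i, hi⟩ := hG.2.1 j
        exact mem_image.2 ⟨(i, j), mem_filter.2 ⟨mem_univ _, hi⟩, rfl⟩
    · intro γ _
      ext c
      simp
    · intro G _
      funext j
      ext i
      simp
    · intro γ _
      rw [prod_sigma']
      refine prod_nbij' (fun c => ⟨c.2, c.1⟩) (fun c => (c.2, c.1)) ?_ ?_ ?_ ?_ ?_
      · intro c hc
        simp [hc]
      · rintro ⟨j, i⟩ hc
        simp only [mem_sigma, mem_filter, mem_univ, true_and] at hc
        exact hc
      · intro c _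
        rfl
      · intro c _
        rfl
      · intro c _
        rfl
  rw [h1]
  -- the patterns
  have h2 : ∀ G ∈ univ.filter (fun G : Fin b → Finset (Fin a) => (∀ j, (G j).Nonempty) ∧ ∀ i, ∃ j, i ∈ G j),
      ∏ j, ∏ i ∈ G j, x i j = ∑ f : Fin a → Fin b,
        if ∀ j, eqs f j ⊆ G j ∧ G j ⊆ eqs f j ∪ lts f j then ∏ j, ∏ i ∈ G j, x i j else 0 := by
    intro G hG
    obtain ⟨f, hf, hu⟩ := ptb_unique G (mem_filter.1 hG).2.2
    rw [sum_eq_single f]
    · rw [if_pos hf]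
    · intro g _ hg
      rw [if_neg]
      intro h3
      exact hg (hu g h3)
    · intro h3
      exact absurd (mem_univ f) h3
  rw [sum_congr rfl h2, sum_comm]
  refine sum_congr rfl fun f _ => ?_
  rw [← sum_filter, filter_filter]
  have h3 : ∏ j, col f (fun i => x i j) j =
      ∏ j, ∑ T ∈ univ.filter (fun T : Finset (Fin a) => T.Nonempty ∧ eqs f j ⊆ T ∧ T ⊆ eqs f j ∪ lts f j),
        ∏ i ∈ T, x i j := prod_congr rfl fun j _ => (pta_col f (fun i => x i j) j).symm
  rw [h3, prod_univ_sum]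
  refine sum_congr ?_ fun _ _ => rfl
  ext G
  rw [mem_filter, Fintype.mem_piFinset]
  constructor
  · rintro ⟨_, ⟨h4, _⟩, h5⟩ j
    rw [mem_filter]
    exact ⟨mem_univ _, h4 j, (h5 j).1, (h5 j).2⟩
  · intro h4
    refine ⟨mem_univ _, ⟨fun j => (mem_filter.1 (h4 j)).2.1, fun i => ⟨f i, ?_⟩⟩, fun j => ?_⟩
    · exact (mem_filter.1 (h4 (f i))).2.2.1 ((ptb_mem_eqs f i (f i)).2 rfl)
    · exact ⟨(mem_filter.1 (h4 j)).2.2.1, (mem_filter.1 (h4 j)).2.2.2⟩

end Pool.Agent.Lib.MP_0430e4_lc.Lsn
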