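import Pool.Agent.Lib.MP_0430e4_lc.Lsn.Defs

/-!
# Stm: elementary rules for `BD`, one vertex on the left or on the right is removed

PROOF. `bd_mono`: `mul_le_mul_of_nonneg_right`. `bd_one`: `Las.grn2_empty`. `bd_left`: exactly
`Las.step_vertex` (then `K α β * W (α i) β * p α * r β` up to `mul_assoc`). `bd_right`: `Las.step_vertex` with the
roles of `ι`, `κ` exchanged, exactly as in the proof of `Las.grn2_right` (file Las/GRN2.lean): `sum_comm`,
`mul_comm (∑ α, p α ^ 2)`, `mul_right_comm`.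
-/

set_option autoImplicit false

namespace Pool.Agent.Lib.MP_0430e4_lc.Lsn

open Finset

variable {V : Type*} [Fintype V] [DecidableEq V]
variable {ι κ : Type*} [Fintype ι] [DecidableEq ι] [Fintype κ] [DecidableEq κ]

theorem bd_mono {c c' : ℝ} (hcc : c ≤ c') {K : (ι → V) → (κ → V) → ℝ} (h : BD c K) : BD c' K := by
  intro p r
  refine (h p r).trans (mul_le_mul_of_nonneg_right hcc ?_)
  exact mul_nonneg (sum_nonneg fun _ _ => sq_nonneg _) (sum_nonneg fun _ _ => sq_nonneg _)

theorem bd_one : BD (V := V) (ι := ι) (κ := κ)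
    ((Fintype.card V : ℝ) ^ (Fintype.card ι + Fintype.card κ)) (fun _ _ => 1) :=
  fun p r => Las.grn2_empty p r

theorem bd_left [Nonempty V] (i : ι) {K : (ι → V) → (κ → V) → ℝ} {W : V → (κ → V) → ℝ}
    {s c : ℝ} (hc : 0 ≤ c)
    (hK : ∀ α β x, K (Function.update α i x) β = K α β)
    (hW : ∀ β, ∑ x, W x β ^ 2 ≤ (Fintype.card V : ℝ) * s ^ 2) (hB : BD c K) :
    BD (s ^ 2 * c) (fun α β => K α β * W (α i) β) :=
  fun p r => Las.step_vertex i hc hK hW hB p r

theorem bd_right [Nonempty V] (j : κ) {K : (ι → V) → (κ → V) → ℝ} {W : V → (ι → V) → ℝ}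
    {s c : ℝ} (hc : 0 ≤ c)
    (hK : ∀ α β y, K α (Function.update β j y) = K α β)
    (hW : ∀ α, ∑ y, W y α ^ 2 ≤ (Fintype.card V : ℝ) * s ^ 2) (hB : BD c K) :
    BD (s ^ 2 * c) (fun α β => K α β * W (β j) α) := by
  intro p r
  have h2 := Las.step_vertex (V := V) (ι := κ) (κ := ι) j
    (K := fun β α => K α β) (W := W) (s := s) (c := c) hc
    (fun β α y => hK α β y) hW
    (fun q t => by
      have := hB t q
      rw [mul_comm (∑ α, q α ^ 2)]
      rw [sum_comm]
      simp only [mul_right_comm _ (q _) (t _)]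
      exact this) r p
  rw [sum_comm] at h2
  rw [mul_comm (∑ α, p α ^ 2)]
  simp only [mul_right_comm _ (r _) (p _)] at h2
  exact h2

end Pool.Agent.Lib.MP_0430e4_lc.Lsn
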